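import Mathlib
import Pool.Agent.H785R2.ABC.Final

/-!
# Decomposition of a set of abc-triples into cells
-/

set_option autoImplicit false

namespace Pool.Agent.X75A

open Finset Pool.Agent.H785R2.ABC Pool.Agent.H785R2.ABC.Fin1

/-- a set of abc-triples up to `N` is the union of `O (N ^ ε)` cells -/
theorem cells_decomp (hF : Basics) (K : ℕ) (ε : ℝ) (hε : 0 < ε) : ∃ D : ℝ, 0 < D ∧ ∀ N : ℕ,
    1 ≤ N → ∀ T : Finset (ℕ × ℕ × ℕ),
    (∀ t ∈ T, IsABCTriple t.1 t.2.1 t.2.2 ∧ t.2.2 ≤ N ∧ t.1 ≤ t.2.1) → ∀ B : ℝ, 0 ≤ B →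
    (∀ T0 : Finset (ℕ × ℕ × ℕ), T0 ⊆ T → T0.Nonempty → Cell K T0 → (T0.card : ℝ) ≤ B) →
    (T.card : ℝ) ≤ D * (N : ℝ) ^ ε * B := by
  classical
  obtain ⟨m, hm⟩ : ∃ m : ℕ, m = 2 * ((K + 1) * 3) := ⟨_, rfl⟩
  have hmpos : (0 : ℝ) < m := by
    rw [hm]; positivity
  obtain ⟨η, hη⟩ : ∃ η : ℝ, η = ε / m := ⟨_, rfl⟩
  have hηpos : 0 < η := by rw [hη]; positivity
  refine ⟨(1 + 2 / η) ^ m, by positivity, ?_⟩
  intro X hX T hT B hB0 hB
  have hX' : (1 : ℝ) ≤ X := by exact_mod_cast hX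
  have hXp : (0 : ℝ) < X := by linarith
  obtain ⟨L, hL⟩ : ∃ L, L = Nat.log 2 X := ⟨_, rfl⟩
  have hsgle : ∀ t ∈ T, ∀ j i, (sg K t j i).1 ≤ L ∧ (sg K t j i).2 ≤ L := by
    intro t ht j i
    obtain ⟨h1, h2, _⟩ := hT t ht
    have hn := num_pos h1 j
    have hnX : num t j ≤ X := (num_le h1 j).trans h2
    rw [hL]
    constructor
    · change Nat.log 2 (rd K (num t j) {i}) ≤ Nat.log 2 X
      apply Nat.log_mono_right
      have e1 : rd K (num t j) {i} ∣ rad (num t j) := by
        rw [← hF.rd_univ K (num t j)]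
        exact hF.rd_dvd K _ _ _ (subset_univ _)
      have e2 : rad (num t j) ∣ num t j := Nat.prod_primeFactors_dvd _
      exact (Nat.le_of_dvd hn (e1.trans e2)).trans hnX
    · change Nat.log 2 (part K (num t j) {i}) ≤ Nat.log 2 X
      apply Nat.log_mono_right
      exact (Nat.le_of_dvd hn (hF.part_dvd K _ _ hn)).trans hnX
  set sgF : (ℕ × ℕ × ℕ) → (Fin 3 → Fin (K + 1) → Fin (L + 1) × Fin (L + 1)) := fun t j i =>
    (Fin.ofNat (L + 1) (sg K t j i).1, Fin.ofNat (L + 1) (sg K t j i).2) with hsgF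
  have hinj : ∀ t ∈ T, ∀ t' ∈ T, sgF t = sgF t' → sg K t = sg K t' := by
    intro t ht t' ht' h
    funext j i
    have h1 := congrFun (congrFun h j) i
    simp only [hsgF, Prod.mk.injEq] at h1
    have a1 := hsgle t ht j i
    have a2 := hsgle t' ht' j i
    have b1 := congrArg Fin.val h1.1
    have b2 := congrArg Fin.val h1.2
    simp only [Fin.ofNat] at b1 b2
    rw [Nat.mod_eq_of_lt (by omega), Nat.mod_eq_of_lt (by omega)] at b1 b2
    exact Prod.ext b1 b2
  have hcard : (T.card : ℝ) ≤ ((L + 1 : ℕ) : ℝ) ^ m * B := by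
    have h1 := card_eq_sum_card_fiberwise (f := sgF) (s := T) (t := univ)
      (fun _ _ => mem_coe.2 (mem_univ _))
    rw [h1]
    push_cast
    calc ∑ σ : (Fin 3 → Fin (K + 1) → Fin (L + 1) × Fin (L + 1)),
          ((T.filter (fun t => sgF t = σ)).card : ℝ)
        ≤ ∑ σ : (Fin 3 → Fin (K + 1) → Fin (L + 1) × Fin (L + 1)), B := by
          apply sum_le_sum
          intro σ _
          rcases (T.filter (fun t => sgF t = σ)).eq_empty_or_nonempty with h0 | h0
          · rw [h0, card_empty, Nat.cast_zero]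
            exact hB0
          · apply hB _ (filter_subset _ _) h0
            apply cell_of hF K _ (fun s hs => (hT s (mem_filter.1 hs).1).1)
              (fun s hs => (hT s (mem_filter.1 hs).1).2.2)
            intro s hs s' hs'
            rw [mem_filter] at hs hs'
            exact hinj s hs.1 s' hs'.1 (hs.2.trans hs'.2.symm)
      _ = _ := by
          rw [sum_const, nsmul_eq_mul, card_univ]
          congr 1
          simp only [Fintype.card_fun, Fintype.card_prod, Fintype.card_fin]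
          have e3 : ((L + 1) * (L + 1)) = (L + 1) ^ 2 := by ring
          rw [e3, ← pow_mul, ← pow_mul, Nat.cast_pow]
          rw [← hm]
          push_cast
          rfl
  have hLb := log_le X hX η hηpos
  rw [← hL] at hLb
  have hLm : ((L + 1 : ℕ) : ℝ) ^ m ≤ (1 + 2 / η) ^ m * (X : ℝ) ^ ε := by
    calc ((L + 1 : ℕ) : ℝ) ^ m ≤ ((1 + 2 / η) * (X : ℝ) ^ η) ^ m :=
          pow_le_pow_left₀ (Nat.cast_nonneg _) hLb m
      _ = (1 + 2 / η) ^ m * (X : ℝ) ^ ε := by
          rw [mul_pow]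
          congr 1
          rw [← Real.rpow_natCast, ← Real.rpow_mul hXp.le]
          congr 1
          rw [hη]; field_simp
  exact hcard.trans (mul_le_mul_of_nonneg_right hLm hB0)

end Pool.Agent.X75A
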