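import Mathlib
import Pool.Agent.N745.T1.Pat1
import Pool.Agent.N745.T1.Pat3

/-!
# Cells with a fixed member
-/

set_option autoImplicit false

namespace Pool.Agent.X75A

open Finset Pool.Agent.H785R2.ABC Pool.Agent.H785R2.ABC.EC Pool.Agent.H705R2.ABC
  Pool.Agent.Y913 Pool.Agent.Y913.Nb Pool.Agent.N745.T1

/-- the member `r` is dusty, the member `q` is fixed: the members `p` lie in one residue class -/
theorem fix_est (hF : Basics) (hA4 : StmtA4) (hJ : StmtJ) (t0 M' K : ℕ) (γ e : ℝ) (hγ : 0 < γ)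
    (he : 0 < e) (ht0 : 3 ≤ γ * t0) (htM : t0 ≤ M') (hK : 1 ≤ e * ((K : ℝ) + 1)) :
    ∃ D : ℝ, 0 < D ∧ ∀ T0 : Finset (ℕ × ℕ × ℕ), Cell K T0 → ∀ s ∈ T0, ∀ Y : ℝ, 1 ≤ Y →
      (∀ j, (rd K (num s j) univ : ℝ) ≤ Y) → ∀ p q r : Fin 3, p ≠ q → q ≠ r → p ≠ r →
      (∀ t ∈ T0, num t q = num s q) →
      ∀ T : Finset (ℕ × ℕ × ℕ), T ⊆ T0 → (∀ t ∈ T, Dusty Y γ M' (num t r)) →
      (T.card : ℝ) ≤ D * (s.2.2 : ℝ) ^ (2 * e) * Y ^ γ *
        (rd K (num s p) univ : ℝ) ^ ((1 : ℝ) / 2) := by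
  classical
  obtain ⟨D4, hD4, h4⟩ := hA4 (e / 3) (by linarith)
  obtain ⟨DJ, hDJ, hJ'⟩ := hJ K (e / 3) (by linarith)
  have hJB : Est.JBody K DJ (e / 3) := hJ'
  obtain ⟨D, hDdef⟩ : ∃ D : ℝ, D = 2 * D4 ^ 2 * DJ * ((2 : ℝ) ^ (K + 1)) ^ (3 * K + 2) *
    ((((2 : ℝ) ^ (K + 1)) ^ (e / 3)) ^ 2 * (((2 : ℝ) ^ (K + 1)) ^ (K + 1)) ^ (e / 3)) := ⟨_, rfl⟩
  have hD : 0 < D := by rw [hDdef]; positivity
  refine ⟨D ^ ((1 : ℝ) / 2), by positivity, ?_⟩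
  intro T0 hT s hs Y hY hrY p q r hpq hqr hpr hfix T hTT hdus
  have hY0 : (0 : ℝ) < Y := by linarith
  have hc1 : 1 ≤ s.2.2 := (hT.abc s hs).2.2.1
  have hcR : (1 : ℝ) ≤ s.2.2 := by exact_mod_cast hc1
  have hcR0 : (0 : ℝ) < s.2.2 := by linarith
  set up : ℝ := (rd K (num s p) univ : ℝ) with hup
  have hup0 : 0 ≤ up := by rw [hup]; positivity
  set B : ℝ := D ^ ((1 : ℝ) / 2) * (s.2.2 : ℝ) ^ (2 * e) * up ^ ((1 : ℝ) / 2) with hB
  have hB0 : 0 ≤ B := by rw [hB]; positivity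
  have hfib := dust_fiber (B := B) hY hγ.le hdus hB0 (by
    intro ρ hρ1 hρ2
    have h1 : Y ^ ((3 : ℝ) / 2) ≤ ((ρ ^ t0 : ℕ) : ℝ) := by
      calc Y ^ ((3 : ℝ) / 2) ≤ Y ^ (γ / 2 * t0) :=
            Real.rpow_le_rpow_of_exponent_le hY (by linarith)
        _ = (Y ^ (γ / 2)) ^ t0 := by rw [Real.rpow_mul hY0.le, Real.rpow_natCast]
        _ ≤ (ρ : ℝ) ^ t0 := pow_le_pow_left₀ (by positivity) hρ1.le t0
        _ = _ := by push_cast; rfl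
    have h2 : (rd K (num s p) univ : ℝ) ^ ((3 : ℝ) / 2) ≤ ((ρ ^ t0 : ℕ) : ℝ) :=
      (Real.rpow_le_rpow (by positivity) (hrY p) (by norm_num)).trans h1
    set Tρ := T.filter fun t => ρ ^ M' ∣ num t r with hTρ
    have hTm : ∀ t ∈ Tρ, t ∈ T0 ∧ ρ ^ t0 ∣ num t r := fun t ht => by
      rw [hTρ, mem_filter] at ht
      exact ⟨hTT ht.1, (pow_dvd_pow ρ htM).trans ht.2⟩
    rcases Tρ.eq_empty_or_nonempty with h0 | ⟨t1, ht1⟩
    · rw [h0, card_empty, Nat.cast_zero]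
      exact hB0
    set P := Tρ.image fun t => num t p with hP
    have hPcard : P.card = Tρ.card := by
      rw [hP]
      apply card_image_of_injOn
      intro t ht t' ht' htt
      have a1 := (hTm t ht).1
      have a2 := (hTm t' ht').1
      exact num_inj (hT.abc t a1) (hT.abc t' a2) hpq htt
        ((hfix t a1).trans (hfix t' a2).symm)
    have hen := energyD hF hT hs hpr (f := ρ ^ t0) hD4.le hDJ.le h4 hJB
      ⟨t1, (hTm t1 ht1).1, (hTm t1 ht1).2⟩ h2 (P ×ˢ P) (by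
        intro x hx
        rw [mem_product, hP] at hx
        obtain ⟨t, ht, htx⟩ := mem_image.1 hx.1
        obtain ⟨t', ht', htx'⟩ := mem_image.1 hx.2
        obtain ⟨a1, a2⟩ := hTm t ht
        obtain ⟨b1, b2⟩ := hTm t' ht'
        refine ⟨?_, ⟨t, a1, a2, htx⟩, ⟨t', b1, b2, htx'⟩⟩
        have g1 := num_zmod (hT.abc t a1) hpq hqr hpr a2
        have g2 := num_zmod (hT.abc t' b1) hpq hqr hpr b2
        rw [hfix t a1, htx] at g1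
        rw [hfix t' b1, htx'] at g2
        have g3 : ((x.1 : ℤ) : ZMod (ρ ^ t0)) = ((x.2 : ℤ) : ZMod (ρ ^ t0)) := by
          push_cast
          rw [g1, g2]
        exact (ZMod.intCast_eq_intCast_iff' _ _ _).1 g3)
    rw [card_product, hPcard, ← hDdef] at hen
    have hl := rd_last_le hF (hT.abc s hs) hK p
    have h5 : ((Tρ.card : ℝ)) ^ 2 ≤ D * (s.2.2 : ℝ) ^ (2 * e) * up := by
      calc ((Tρ.card : ℝ)) ^ 2 = ((Tρ.card * Tρ.card : ℕ) : ℝ) := by push_cast; ring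
        _ ≤ D * (s.2.2 : ℝ) ^ (3 * (e / 3)) * (up * (rd K (num s p) {Fin.last K} : ℝ)) := hen
        _ ≤ D * (s.2.2 : ℝ) ^ (3 * (e / 3)) * (up * (s.2.2 : ℝ) ^ e) := by gcongr
        _ = D * ((s.2.2 : ℝ) ^ e * (s.2.2 : ℝ) ^ e) * up := by
            rw [show 3 * (e / 3) = e by ring]; ring
        _ = _ := by
            rw [← Real.rpow_add hcR0]
            congr 3
            ring
    have h6 : (Tρ.card : ℝ) ≤ (D * (s.2.2 : ℝ) ^ (2 * e) * up) ^ ((1 : ℝ) / 2) := by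
      have h7 : (Tρ.card : ℝ) = (((Tρ.card : ℝ)) ^ 2) ^ ((1 : ℝ) / 2) := by
        rw [← Real.rpow_natCast, ← Real.rpow_mul (Nat.cast_nonneg _)]
        norm_num
      exact h7.le.trans (Real.rpow_le_rpow (sq_nonneg _) h5 (by norm_num))
    refine h6.trans ?_
    have g1 : (0 : ℝ) ≤ (s.2.2 : ℝ) ^ (2 * e) := by positivity
    have g2 : (0 : ℝ) ≤ D * (s.2.2 : ℝ) ^ (2 * e) := mul_nonneg hD.le g1
    rw [Real.mul_rpow g2 hup0, Real.mul_rpow hD.le g1, hB, ← Real.rpow_mul hcR0.le]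
    apply mul_le_mul_of_nonneg_right _ (Real.rpow_nonneg hup0 _)
    apply mul_le_mul_of_nonneg_left _ (Real.rpow_nonneg hD.le _)
    apply Real.rpow_le_rpow_of_exponent_le hcR
    linarith)
  calc (T.card : ℝ) ≤ Y ^ γ * B := hfib
    _ = _ := by rw [hB]; ring

/-- the member `r` is dusty, `p` is solid, `q` is fixed -/
theorem fix_one (hF : Basics) (n w M M' K : ℕ) (γ lam e : ℝ) (hγ : 0 < γ)
    (hlam : 0 < lam) (he : 0 < e) (hM' : 1 ≤ M') (hKK : 2 * KK n (n * w) ≤ M')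
    (hw : 2 * (M : ℝ) ≤ γ * w) :
    ∃ D : ℝ, 0 < D ∧ ∀ T0 : Finset (ℕ × ℕ × ℕ), Cell K T0 → ∀ s ∈ T0, ∀ Y : ℝ, 1 ≤ Y →
      (s.2.2 : ℝ) ^ lam ≤ Y → ∀ p q r : Fin 3, p ≠ q → q ≠ r → p ≠ r →
      (∀ t ∈ T0, num t q = num s q) →
      ∀ T : Finset (ℕ × ℕ × ℕ), T ⊆ T0 → (∀ t ∈ T, Dusty Y γ M' (num t r)) →
      (∀ t ∈ T, NB n (Y ^ (2 * M)) (num t p)) →
      (T.card : ℝ) ≤ D * (s.2.2 : ℝ) ^ e * Y ^ (γ + 2 * γ * (n : ℝ) ^ 2) := by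
  classical
  obtain ⟨C0, hC0⟩ := count_one n w
  obtain ⟨Dp, hDp, hp⟩ := polylog_le (K + 1) n he
  obtain ⟨c0, hc0⟩ := log_small C0 n (K + 1) (δ := lam * γ) (mul_pos hlam hγ)
  obtain ⟨Ds, hDs, hsm⟩ := card_small hF K c0
  refine ⟨Ds + Dp * (C0 : ℝ) ^ n, by positivity, ?_⟩
  intro T0 hT s hs Y hY hcY p q r hpq hqr hpr hfix T hTT hdus hnb
  have hY0 : (0 : ℝ) < Y := by linarith
  have hc1 : 1 ≤ s.2.2 := (hT.abc s hs).2.2.1
  have hcR : (1 : ℝ) ≤ s.2.2 := by exact_mod_cast hc1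
  have hcR0 : (0 : ℝ) < s.2.2 := by linarith
  have hce : (1 : ℝ) ≤ (s.2.2 : ℝ) ^ e := Real.one_le_rpow hcR he.le
  have hYe : (1 : ℝ) ≤ Y ^ (γ + 2 * γ * (n : ℝ) ^ 2) := Real.one_le_rpow hY (by positivity)
  rcases le_or_gt s.2.2 c0 with hsc | hsc
  · have h1 : (T.card : ℝ) ≤ Ds :=
      (by exact_mod_cast card_le_card hTT : (T.card : ℝ) ≤ T0.card).trans (hsm T0 hT s hs hsc)
    have h2 : Ds ≤ Ds + Dp * (C0 : ℝ) ^ n := le_add_of_nonneg_right (by positivity)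
    have h3 : (1 : ℝ) ≤ (s.2.2 : ℝ) ^ e * Y ^ (γ + 2 * γ * (n : ℝ) ^ 2) :=
      one_le_mul_of_one_le_of_one_le hce hYe
    calc (T.card : ℝ) ≤ Ds + Dp * (C0 : ℝ) ^ n := h1.trans h2
      _ = (Ds + Dp * (C0 : ℝ) ^ n) * 1 := (mul_one _).symm
      _ ≤ (Ds + Dp * (C0 : ℝ) ^ n) * ((s.2.2 : ℝ) ^ e *
          Y ^ (γ + 2 * γ * (n : ℝ) ^ 2)) := mul_le_mul_of_nonneg_left h3 (by positivity)
      _ = _ := by ring
  obtain ⟨E, hE⟩ : ∃ E, E = K + 1 + Nat.log 2 s.2.2 := ⟨_, rfl⟩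
  set B2 : ℝ := Dp * (s.2.2 : ℝ) ^ e * (C0 : ℝ) ^ n * Y ^ (2 * γ * (n : ℝ) ^ 2) with hB2
  have hB20 : 0 ≤ B2 := by rw [hB2]; positivity
  have hfib := dust_fiber (B := B2) hY hγ.le hdus hB20 (by
    intro ρ hρ1 hρ2
    obtain ⟨g1, g2, g3⟩ := rho_bounds (M := M) (w := w) hY hγ hw hρ1
    set Tρ := T.filter fun t => ρ ^ M' ∣ num t r with hTρ
    have hTm : ∀ t ∈ Tρ, t ∈ T ∧ ρ ^ M' ∣ num t r := fun t ht => by
      rw [hTρ, mem_filter] at ht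
      exact ht
    have hcard : (Tρ.image fun t => num t p).card = Tρ.card := by
      apply card_image_of_injOn
      intro t ht t' ht' htt
      have a1 := hTT (hTm t ht).1
      have a2 := hTT (hTm t' ht').1
      exact num_inj (hT.abc t a1) (hT.abc t' a2) hpq htt ((hfix t a1).trans (hfix t' a2).symm)
    have h5 := hC0 ρ M' E (Y ^ (2 * M)) (Tρ.image fun t => num t p)
      (((sg r : ℤ) : ZMod (ρ ^ M')) * (num s q : ZMod (ρ ^ M'))) g1 (one_le_pow₀ hY) g2 (by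
        have h6 : ((C0 * (n * E) : ℕ) : ℝ) ≤ ((ρ ^ 2 : ℕ) : ℝ) := by
          calc ((C0 * (n * E) : ℕ) : ℝ) ≤ (s.2.2 : ℝ) ^ (lam * γ) := by
                rw [hE]; exact hc0 s.2.2 hsc.le hc1
            _ = ((s.2.2 : ℝ) ^ lam) ^ γ := by rw [Real.rpow_mul hcR0.le]
            _ ≤ Y ^ γ := Real.rpow_le_rpow (by positivity) hcY hγ.le
            _ ≤ _ := g3
        exact_mod_cast h6) hKK (by
        intro x hx
        obtain ⟨t, ht, rfl⟩ := mem_image.1 hx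
        obtain ⟨b1, b2⟩ := hTm t ht
        have htT := hTT b1
        refine ⟨num_pos (hT.abc t htT) p, hnb t b1, ?_, ?_, ?_⟩
        · exact Nat.Coprime.coprime_dvd_right ((dvd_pow_self ρ (by omega)).trans b2)
            (num_coprime (hT.abc t htT) hpr)
        · rw [← hfix t htT]
          exact num_zmod (hT.abc t htT) hpq hqr hpr b2
        · rw [hE]
          exact log_num_le hF hT hs htT p)
    rw [hcard] at h5
    have h6 := rho_pow_le hY hρ2 C0 E n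
    have h7 := hp s.2.2 hc1
    rw [← hE] at h7
    calc (Tρ.card : ℝ) ≤ (((2 * E + 1) ^ n * (C0 * (ρ ^ 2) ^ n) ^ n : ℕ) : ℝ) := by
          exact_mod_cast h5
      _ ≤ (((2 * E + 1) ^ n : ℕ) : ℝ) * (C0 : ℝ) ^ n * Y ^ (2 * γ * (n : ℝ) ^ 2) := h6
      _ ≤ (Dp * (s.2.2 : ℝ) ^ e) * (C0 : ℝ) ^ n * Y ^ (2 * γ * (n : ℝ) ^ 2) := by
          gcongr
      _ = B2 := by rw [hB2])
  have hYmul : Y ^ γ * Y ^ (2 * γ * (n : ℝ) ^ 2) = Y ^ (γ + 2 * γ * (n : ℝ) ^ 2) :=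
    (Real.rpow_add hY0 _ _).symm
  calc (T.card : ℝ) ≤ Y ^ γ * B2 := hfib
    _ = (Dp * (C0 : ℝ) ^ n) * (s.2.2 : ℝ) ^ e * (Y ^ γ * Y ^ (2 * γ * (n : ℝ) ^ 2)) := by
        rw [hB2]; ring
    _ = (Dp * (C0 : ℝ) ^ n) * (s.2.2 : ℝ) ^ e * Y ^ (γ + 2 * γ * (n : ℝ) ^ 2) := by rw [hYmul]
    _ ≤ _ := by
        apply mul_le_mul_of_nonneg_right _ (by positivity)
        apply mul_le_mul_of_nonneg_right _ (by positivity)
        exact le_add_of_nonneg_left hDs.le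

end Pool.Agent.X75A
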