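import Mathlib
import Pool.Agent.X75A.FixPat
import Pool.Agent.X75A.Comb

/-!
# One pattern of dusty and solid members, one member is fixed
-/

set_option autoImplicit false

namespace Pool.Agent.X75A

open Finset Pool.Agent.H785R2.ABC Pool.Agent.H785R2.ABC.EC Pool.Agent.Y913
  Pool.Agent.Y913.Nb Pool.Agent.H705R2.ABC Pool.Agent.N745.T1

/-- **one pattern**, the member `q` is fixed -/
theorem fix_pattern (hF : Basics) (hA4 : StmtA4) (hJ : StmtJ) (η : ℝ) (hη : 0 < η) (M : ℕ)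
    (hM : 1 ≤ M) (γ : ℝ) (hγ : 0 < γ) (hγ1 : γ ≤ 1) (M' : ℕ) (γ' : ℝ) (w t0 : ℕ)
    (hs : Step η M γ M' γ' w t0) : ∃ L : ℝ, 0 < L ∧ ∀ (K : ℕ) (lam e : ℝ), 0 < lam → 0 < e →
      1 ≤ e * ((K : ℝ) + 1) → ∃ D : ℝ, 0 < D ∧ ∀ T0 : Finset (ℕ × ℕ × ℕ), Cell K T0 →
      ∀ s ∈ T0, ∀ Y : ℝ, 1 ≤ Y → (s.2.2 : ℝ) ^ lam ≤ Y →
      (∀ t ∈ T0, (rad (t.1 * t.2.1 * t.2.2) : ℝ) ≤ Y) → (∀ t ∈ T0, Y ^ L ≤ (t.2.2 : ℝ)) →
      ∀ T : Finset (ℕ × ℕ × ℕ), T ⊆ T0 → ∀ S : Finset (Fin 3),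
      (∀ t ∈ T, (∀ i ∈ S, Dusty Y γ' M' (num t i)) ∧ (∀ i ∉ S, ¬ Dusty Y γ M (num t i))) →
      ∀ p q : Fin 3, p ≠ q → (∀ t ∈ T0, num t q = num s q) →
      (T.card : ℝ) ≤ D * ((s.2.2 : ℝ) ^ (2 * e) * Y ^ η *
        (rd K (num s p) univ : ℝ) ^ ((1 : ℝ) / 2)) := by
  classical
  obtain ⟨L, D4, hL, hD4, h4⟩ := pat_sss (nb γ) M hM η hη
  refine ⟨L, hL, ?_⟩
  intro K lam e hlam he hK
  obtain ⟨D1, hD1, h1⟩ := fix_one hF (nb γ) w M M' K γ' lam e hs.hγ' hlam he hs.hM' hs.hKK1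
    hs.hw
  obtain ⟨D2, hD2, h2⟩ := pat_two hF (nb γ) w M M' K γ' lam e hs.hγ' hlam he hs.hM' hs.hKK2 hs.hw
  obtain ⟨D3, hD3, h3⟩ := fix_est hF hA4 hJ t0 M' K γ' e hs.hγ' he hs.ht0 hs.htM hK
  refine ⟨D1 + D2 + D3 + D4, by positivity, ?_⟩
  intro T0 hT s hsT Y hY hcY hradY hYL T hTT S hpat
  have hY0 : (0 : ℝ) < Y := by linarith
  have hc1 : 1 ≤ s.2.2 := (hT.abc s hsT).2.2.1
  have hcR : (1 : ℝ) ≤ s.2.2 := by exact_mod_cast hc1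
  have hcR0 : (0 : ℝ) < s.2.2 := by linarith
  have hce : (1 : ℝ) ≤ (s.2.2 : ℝ) ^ (2 * e) := Real.one_le_rpow hcR (by positivity)
  have hce' : (s.2.2 : ℝ) ^ e ≤ (s.2.2 : ℝ) ^ (2 * e) :=
    Real.rpow_le_rpow_of_exponent_le hcR (by linarith)
  have hradj : ∀ t ∈ T0, ∀ j, (rad (num t j) : ℝ) ≤ Y := by
    intro t ht j
    refine le_trans ?_ (hradY t ht)
    exact_mod_cast rad_num_le (hT.abc t ht) j
  set u : Fin 3 → ℝ := fun j => (rd K (num s j) univ : ℝ) with hu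
  have hu1 : ∀ j, 1 ≤ u j := fun j => by
    show (1 : ℝ) ≤ (rd K (num s j) univ : ℝ)
    exact_mod_cast hF.rd_pos _ _ _
  have huY : ∀ j, u j ≤ Y := fun j => by
    rw [hu]
    show (rd K (num s j) univ : ℝ) ≤ Y
    rw [hF.rd_univ]
    exact hradj s hsT j
  have hsolid : ∀ t ∈ T, ∀ i ∉ S, NB (nb γ) (Y ^ (2 * M)) (num t i) := by
    intro t ht i hi
    have hm := num_pos (hT.abc t (hTT ht)) i
    exact nb_of_not_dusty hY hγ hγ1 hM (Nat.le_ceil _) hm (hradj t (hTT ht) i)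
      ((hpat t ht).2 i hi)
  have hsm1 : γ' + 2 * γ' * ((nb γ : ℕ) : ℝ) ^ 2 ≤ η := by
    refine le_trans ?_ hs.small
    have h6 : ((nb γ : ℕ) : ℝ) ^ 2 ≤ ((2 * nb γ : ℕ) : ℝ) ^ 2 := by
      apply pow_le_pow_left₀ (Nat.cast_nonneg _)
      exact_mod_cast (by omega : nb γ ≤ 2 * nb γ)
    have h7 := mul_le_mul_of_nonneg_left h6 (by linarith [hs.hγ'] : (0 : ℝ) ≤ 2 * γ')
    linarith
  have hsm0 : γ' ≤ η := by
    refine le_trans ?_ hsm1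
    have := hs.hγ'
    have h6 : (0 : ℝ) ≤ 2 * γ' * ((nb γ : ℕ) : ℝ) ^ 2 := by positivity
    linarith
  intro p q hpq hfix
  obtain ⟨r, hqr, hpr, hall⟩ := exists_third p q hpq
  obtain ⟨V, hV⟩ : ∃ V : ℝ, V = (rd K (num s p) univ : ℝ) ^ ((1 : ℝ) / 2) := ⟨_, rfl⟩
  have hV1 : 1 ≤ V := by
    rw [hV]
    exact Real.one_le_rpow (hu1 p) (by norm_num)
  obtain ⟨G, hG⟩ : ∃ G : ℝ, G = (s.2.2 : ℝ) ^ (2 * e) * Y ^ η := ⟨_, rfl⟩
  have hG0 : 0 ≤ G := by rw [hG]; positivity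
  have hfin : ∀ D' : ℝ, 0 ≤ D' → D' ≤ D1 + D2 + D3 + D4 → ∀ W : ℝ, W ≤ V →
      (T.card : ℝ) ≤ D' * (G * W) → (T.card : ℝ) ≤ (D1 + D2 + D3 + D4) *
        ((s.2.2 : ℝ) ^ (2 * e) * Y ^ η * (rd K (num s p) univ : ℝ) ^ ((1 : ℝ) / 2)) := by
    intro D' h0 h5 W hW h6
    rw [← hG, ← hV]
    calc (T.card : ℝ) ≤ D' * (G * W) := h6
      _ ≤ D' * (G * V) := mul_le_mul_of_nonneg_left (mul_le_mul_of_nonneg_left hW hG0) h0
      _ ≤ _ := mul_le_mul_of_nonneg_right h5 (by positivity)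
  by_cases mr : r ∈ S
  · -- the third member is dusty
    refine hfin D3 hD3.le (by linarith) V le_rfl ?_
    have h5 := h3 T0 hT s hsT Y hY huY p q r hpq hqr hpr hfix T hTT
      (fun t ht => (hpat t ht).1 r mr)
    refine h5.trans ?_
    have h9 : Y ^ γ' ≤ Y ^ η := Real.rpow_le_rpow_of_exponent_le hY hsm0
    rw [← hV]
    calc D3 * (s.2.2 : ℝ) ^ (2 * e) * Y ^ γ' * V
        ≤ D3 * (s.2.2 : ℝ) ^ (2 * e) * Y ^ η * V := by gcongr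
      _ = _ := by rw [hG]; ring
  by_cases mp : p ∈ S
  · -- the third member is solid, `p` is dusty
    refine hfin D1 hD1.le (by linarith) 1 hV1 ?_
    have h5 := h1 T0 hT s hsT Y hY hcY r q p (Ne.symm hqr) (Ne.symm hpq) (Ne.symm hpr) hfix T hTT
      (fun t ht => (hpat t ht).1 p mp) (fun t ht => hsolid t ht r mr)
    refine h5.trans ?_
    have h9 : Y ^ (γ' + 2 * γ' * ((nb γ : ℕ) : ℝ) ^ 2) ≤ Y ^ η :=
      Real.rpow_le_rpow_of_exponent_le hY hsm1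
    calc D1 * (s.2.2 : ℝ) ^ e * Y ^ (γ' + 2 * γ' * ((nb γ : ℕ) : ℝ) ^ 2)
        ≤ D1 * (s.2.2 : ℝ) ^ (2 * e) * Y ^ η := by gcongr
      _ = _ := by rw [hG]; ring
  by_cases mq : q ∈ S
  · -- `p`, `r` are solid, `q` is dusty
    refine hfin D2 hD2.le (by linarith) 1 hV1 ?_
    have h5 := h2 T0 hT s hsT Y hY hcY p r q hpr (Ne.symm hqr) hpq T hTT
      (fun t ht => (hpat t ht).1 q mq) (fun t ht => hsolid t ht p mp)
      (fun t ht => hsolid t ht r mr)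
    refine h5.trans ?_
    have h9 : Y ^ (γ' + 2 * γ' * ((2 * nb γ : ℕ) : ℝ) ^ 2) ≤ Y ^ η :=
      Real.rpow_le_rpow_of_exponent_le hY hs.small
    calc D2 * (s.2.2 : ℝ) ^ e * Y ^ (γ' + 2 * γ' * ((2 * nb γ : ℕ) : ℝ) ^ 2)
        ≤ D2 * (s.2.2 : ℝ) ^ (2 * e) * Y ^ η := by gcongr
      _ = _ := by rw [hG]; ring
  · -- three solid members
    refine hfin D4 hD4.le (by linarith) 1 hV1 ?_
    have hS : S = ∅ := by
      ext i
      rcases hall i with rfl | rfl | rfl <;> simp [mp, mq, mr]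
    have h5 := h4 T Y hY (fun t ht => hT.abc t (hTT ht))
      (fun t ht j => hsolid t ht j (by rw [hS]; exact notMem_empty j))
      (fun t ht => hYL t (hTT ht))
    refine h5.trans ?_
    apply mul_le_mul_of_nonneg_left _ hD4.le
    rw [mul_one]
    calc Y ^ η = 1 * Y ^ η := (one_mul _).symm
      _ ≤ G := by rw [hG]; gcongr

end Pool.Agent.X75A
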