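import Mathlib
import Pool.Agent.X75A.Comb
import Pool.Agent.X75A.Fix
import Pool.Agent.X75A.Decomp
import Pool.Agent.H705R2.ABC.Main

/-!
# The bounds for cells and the final count
-/

set_option autoImplicit false

namespace Pool.Agent.X75A

open Finset Pool.Agent.H785R2.ABC Pool.Agent.H785R2.ABC.EC Pool.Agent.H705R2.ABC
  Pool.Agent.N745.T1

/-- a bound `W` (up to small powers) for every cell with the property `R K T0 s W` -/
def CellBound (η : ℝ) (R : ℕ → Finset (ℕ × ℕ × ℕ) → (ℕ × ℕ × ℕ) → ℝ → Prop) : Prop :=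
  ∃ L : ℝ, 0 < L ∧ ∀ (K : ℕ) (lam e : ℝ), 0 < lam → 0 < e →
    1 ≤ e * ((K : ℝ) + 1) → ∃ D : ℝ, 0 < D ∧ ∀ T0 : Finset (ℕ × ℕ × ℕ), Cell K T0 →
    ∀ s ∈ T0, ∀ W : ℝ, 0 ≤ W → R K T0 s W → ∀ Y : ℝ, 1 ≤ Y → (s.2.2 : ℝ) ^ lam ≤ Y →
    (∀ t ∈ T0, (rad (t.1 * t.2.1 * t.2.2) : ℝ) ≤ Y) → (∀ t ∈ T0, Y ^ L ≤ (t.2.2 : ℝ)) →
    (T0.card : ℝ) ≤ D * ((s.2.2 : ℝ) ^ (2 * e) * Y ^ η * W)

/-- from patterns to cells -/
theorem cells_of_patterns (η : ℝ) (hη : 0 < η)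
    (R : ℕ → Finset (ℕ × ℕ × ℕ) → (ℕ × ℕ × ℕ) → ℝ → Prop)
    (hpat : ∀ (M : ℕ), 1 ≤ M → ∀ (γ : ℝ), 0 < γ → γ ≤ 1 → ∀ (M' : ℕ) (γ' : ℝ) (w t0 : ℕ),
      Step η M γ M' γ' w t0 → ∃ L : ℝ, 0 < L ∧ ∀ (K : ℕ) (lam e : ℝ), 0 < lam → 0 < e →
      1 ≤ e * ((K : ℝ) + 1) → ∃ D : ℝ, 0 < D ∧ ∀ T0 : Finset (ℕ × ℕ × ℕ), Cell K T0 →
      ∀ s ∈ T0, ∀ W : ℝ, 0 ≤ W → R K T0 s W → ∀ Y : ℝ, 1 ≤ Y → (s.2.2 : ℝ) ^ lam ≤ Y →
      (∀ t ∈ T0, (rad (t.1 * t.2.1 * t.2.2) : ℝ) ≤ Y) → (∀ t ∈ T0, Y ^ L ≤ (t.2.2 : ℝ)) →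
      ∀ T : Finset (ℕ × ℕ × ℕ), T ⊆ T0 → ∀ S : Finset (Fin 3),
      (∀ t ∈ T, (∀ i ∈ S, Dusty Y γ' M' (num t i)) ∧ (∀ i ∉ S, ¬ Dusty Y γ M (num t i))) →
      (T.card : ℝ) ≤ D * ((s.2.2 : ℝ) ^ (2 * e) * Y ^ η * W)) :
    CellBound η R := by
  classical
  obtain ⟨M, γ, w, t0, hlev⟩ := exists_levels η hη
  have hpat := fun j : Fin 4 => hpat (M j) (hlev j).1.1 (γ j)
    (hlev j).1.2.1 (hlev j).1.2.2 (M (j + 1)) (γ (j + 1)) (w j) (t0 j) (hlev j).2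
  choose Lf hLf hpat using hpat
  set L : ℝ := ∑ j, Lf j with hL
  have hL0 : 0 < L := sum_pos (fun j _ => hLf j) univ_nonempty
  have hLle : ∀ j, Lf j ≤ L := fun j => single_le_sum (fun i _ => (hLf i).le) (mem_univ j)
  refine ⟨L, hL0, ?_⟩
  intro K lam e hlam he0 hK1
  have hD := fun j => hpat j K lam e hlam he0 hK1
  choose Df hDf hbd using hD
  set DD : ℝ := ∑ j, Df j with hDD
  have hDD0 : 0 < DD := sum_pos (fun j _ => hDf j) univ_nonempty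
  have hDle : ∀ j, Df j ≤ DD := fun j => single_le_sum (fun i _ => (hDf i).le) (mem_univ j)
  refine ⟨32 * DD, by positivity, ?_⟩
  intro T0 hT s hs W hW0 hR Y hY1 hcY hradY hYL
  -- the pieces
  let piece : Fin 4 × Finset (Fin 3) → Finset (ℕ × ℕ × ℕ) := fun x => T0.filter fun t =>
    (∀ i ∈ x.2, Dusty Y (γ (x.1 + 1)) (M (x.1 + 1)) (num t i)) ∧
      (∀ i ∉ x.2, ¬ Dusty Y (γ x.1) (M x.1) (num t i))
  have hcov : T0 ⊆ univ.biUnion piece := by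
    intro t ht
    obtain ⟨j, hj⟩ := exists_good hY1 hlev (fun i => num t i)
    rw [mem_biUnion]
    refine ⟨(j, univ.filter fun i => Dusty Y (γ (j + 1)) (M (j + 1)) (num t i)), mem_univ _, ?_⟩
    rw [mem_filter]
    refine ⟨ht, ?_, ?_⟩
    · intro i hi
      exact (mem_filter.1 hi).2
    · intro i hi
      have h1 : ¬ Dusty Y (γ (j + 1)) (M (j + 1)) (num t i) := fun h2 =>
        hi (mem_filter.2 ⟨mem_univ _, h2⟩)
      exact (hj i).resolve_left h1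
  set G : ℝ := (s.2.2 : ℝ) ^ (2 * e) * Y ^ η * W with hG
  have hG0 : 0 ≤ G := by
    rw [hG]; positivity
  have hpiece : ∀ x, ((piece x).card : ℝ) ≤ DD * G := by
    intro x
    have h1 := hbd x.1 T0 hT s hs W hW0 hR Y hY1 hcY hradY (fun t ht =>
      (Real.rpow_le_rpow_of_exponent_le hY1 (hLle x.1)).trans (hYL t ht)) (piece x)
      (filter_subset _ _) x.2 (fun t ht => (mem_filter.1 ht).2)
    exact h1.trans (mul_le_mul_of_nonneg_right (hDle _) hG0)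
  have h1 : (T0.card : ℝ) ≤ ∑ x, ((piece x).card : ℝ) := by
    have h2 := (card_le_card hcov).trans card_biUnion_le
    exact_mod_cast h2
  calc (T0.card : ℝ) ≤ ∑ x, ((piece x).card : ℝ) := h1
    _ ≤ ∑ _x : Fin 4 × Finset (Fin 3), DD * G := sum_le_sum fun x _ => hpiece x
    _ = 32 * DD * G := by
      rw [sum_const, card_univ, Fintype.card_prod, Fintype.card_finset, Fintype.card_fin,
        Fintype.card_fin, nsmul_eq_mul]
      norm_num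
      ring

/-- the property of the box theorem -/
def RBox (K : ℕ) (_T0 : Finset (ℕ × ℕ × ℕ)) (s : ℕ × ℕ × ℕ) (W : ℝ) : Prop :=
  ∃ p q : Fin 3, p ≠ q ∧ W = ((rd K (num s p) univ : ℝ) * rd K (num s q) univ) ^ ((1 : ℝ) / 2)

/-- the property of the theorem on a fixed member -/
def RFix (K : ℕ) (T0 : Finset (ℕ × ℕ × ℕ)) (s : ℕ × ℕ × ℕ) (W : ℝ) : Prop :=
  ∃ p q : Fin 3, p ≠ q ∧ (∀ t ∈ T0, num t q = num s q) ∧
    W = (rd K (num s p) univ : ℝ) ^ ((1 : ℝ) / 2)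

theorem stmtJ' : StmtJ := stmtJ_of (stmtPwr_of (stmtTwo_of stmtD') stmtFac)

theorem cellBound_box (η : ℝ) (hη : 0 < η) : CellBound η RBox := by
  apply cells_of_patterns η hη
  intro M hM γ hγ hγ1 M' γ' w t0 hs
  obtain ⟨L, hL, h⟩ := one_pattern basics stmtA4' stmtJ' η hη M hM γ hγ hγ1 M' γ' w t0 hs
  refine ⟨L, hL, ?_⟩
  intro K lam e hlam he hK
  obtain ⟨D, hD, h⟩ := h K lam e hlam he hK
  refine ⟨D, hD, ?_⟩
  rintro T0 hT s hsT W hW ⟨p, q, hpq, rfl⟩ Y hY hcY hrad hYL T hTT S hpat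
  exact h T0 hT s hsT Y hY hcY hrad hYL T hTT S hpat p q hpq

theorem cellBound_fix (η : ℝ) (hη : 0 < η) : CellBound η RFix := by
  apply cells_of_patterns η hη
  intro M hM γ hγ hγ1 M' γ' w t0 hs
  obtain ⟨L, hL, h⟩ := fix_pattern basics stmtA4' stmtJ' η hη M hM γ hγ hγ1 M' γ' w t0 hs
  refine ⟨L, hL, ?_⟩
  intro K lam e hlam he hK
  obtain ⟨D, hD, h⟩ := h K lam e hlam he hK
  refine ⟨D, hD, ?_⟩
  rintro T0 hT s hsT W hW ⟨p, q, hpq, hfix, rfl⟩ Y hY hcY hrad hYL T hTT S hpat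
  exact h T0 hT s hsT Y hY hcY hrad hYL T hTT S hpat p q hpq hfix

/-- **the final count** -/
theorem count_of_cells (R : ℕ → Finset (ℕ × ℕ × ℕ) → (ℕ × ℕ × ℕ) → ℝ → Prop)
    (hR : ∀ η : ℝ, 0 < η → CellBound η R) (ε : ℝ) (hε : 0 < ε) :
    ∃ M : ℕ, 1 ≤ M ∧ ∀ k : ℕ, ∃ (C : ℝ) (K : ℕ), 0 < C ∧ ∀ X : ℕ, 1 ≤ X →
    ∀ W : ℝ, 1 ≤ W → ∀ T : Finset (ℕ × ℕ × ℕ),
    (∀ t ∈ T, IsABCTriple t.1 t.2.1 t.2.2 ∧ rad (t.1 * t.2.1 * t.2.2) ≤ X ∧
      rad (t.1 * t.2.1 * t.2.2) ^ M ≤ t.2.2 ∧ t.2.2 ≤ X ^ k ∧ t.1 ≤ t.2.1) →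
    (∀ T0 : Finset (ℕ × ℕ × ℕ), T0 ⊆ T → Cell K T0 → ∀ s ∈ T0, ∃ W' : ℝ, 0 ≤ W' ∧ W' ≤ W ∧
      R K T0 s W') →
    (T.card : ℝ) ≤ C * (X : ℝ) ^ ε * W := by
  classical
  obtain ⟨L, hL0, hL⟩ := hR (ε / 4) (by positivity)
  obtain ⟨M, hM⟩ := exists_nat_ge (2 * L + 1)
  have hMR : (0 : ℝ) < M := by linarith
  have hM0 : 0 < M := by exact_mod_cast hMR
  refine ⟨M, hM0, ?_⟩
  intro k
  have hk1 : (0 : ℝ) < (k : ℝ) + 1 := by positivity
  obtain ⟨e, he⟩ : ∃ e : ℝ, e = ε / (8 * ((k : ℝ) + 1)) := ⟨_, rfl⟩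
  have he0 : 0 < e := by rw [he]; positivity
  obtain ⟨K, hK⟩ := exists_nat_ge (1 / e)
  have hK1 : 1 ≤ e * ((K : ℝ) + 1) := by
    rw [div_le_iff₀ he0] at hK
    nlinarith
  obtain ⟨lam, hlam⟩ : ∃ lam : ℝ, lam = 1 / ((k : ℝ) + M) := ⟨_, rfl⟩
  have hkM : (0 : ℝ) < (k : ℝ) + M := by positivity
  have hlam0 : 0 < lam := by rw [hlam]; positivity
  have hlamM : lam ≤ 1 / (M : ℝ) := by
    rw [hlam]
    apply one_div_le_one_div_of_le hMR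
    have : (0 : ℝ) ≤ k := Nat.cast_nonneg _
    linarith
  have hlamk : (k : ℝ) * lam ≤ 1 := by
    rw [hlam, mul_one_div, div_le_one hkM]
    linarith
  obtain ⟨D, hD, hcell⟩ := hL K lam e hlam0 he0 hK1
  obtain ⟨Ds, hDs, hsm⟩ := card_small basics K (8 ^ (K + 1))
  obtain ⟨De, hDe, hdec⟩ := cells_decomp basics K (ε / (4 * ((k : ℝ) + 1))) (by positivity)
  refine ⟨De * (Ds + D), K, by positivity, ?_⟩
  intro X hX W hW T hT hTR
  have hX1 : (1 : ℝ) ≤ X := by exact_mod_cast hX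
  have hX0 : (0 : ℝ) < X := by linarith
  set κ : ℝ := (2 : ℝ) ^ (K + 1) with hκ
  have hκ1 : 1 ≤ κ := one_le_pow₀ (by norm_num)
  -- the bound for one cell
  have hone : ∀ T0 : Finset (ℕ × ℕ × ℕ), T0 ⊆ T → T0.Nonempty → Cell K T0 →
      (T0.card : ℝ) ≤ (Ds + D) * (X : ℝ) ^ (ε / 2) * W := by
    rintro T0 hT0 ⟨s, hs⟩ hC
    obtain ⟨W', hW'0, hW'W, hRW⟩ := hTR T0 hT0 hC s hs
    have hXe : (1 : ℝ) ≤ (X : ℝ) ^ (ε / 2) := Real.one_le_rpow hX1 (by positivity)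
    have hc1 : 1 ≤ s.2.2 := (hC.abc s hs).2.2.1
    have hcR : (1 : ℝ) ≤ s.2.2 := by exact_mod_cast hc1
    have hcR0 : (0 : ℝ) < s.2.2 := by linarith
    rcases le_or_gt s.2.2 (8 ^ (K + 1)) with hsc | hsc
    · have h1 := hsm T0 hC s hs hsc
      have h2 : (1 : ℝ) ≤ (X : ℝ) ^ (ε / 2) * W := one_le_mul_of_one_le_of_one_le hXe hW
      calc (T0.card : ℝ) ≤ Ds := h1
        _ ≤ (Ds + D) * 1 := by linarith
        _ ≤ (Ds + D) * ((X : ℝ) ^ (ε / 2) * W) := mul_le_mul_of_nonneg_left h2 (by positivity)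
        _ = _ := by ring
    have hkc : (1 : ℝ) ≤ κ * (s.2.2 : ℝ) := one_le_mul_of_one_le_of_one_le hκ1 hcR
    obtain ⟨Y, hY⟩ : ∃ Y : ℝ, Y = min (X : ℝ) ((κ * (s.2.2 : ℝ)) ^ (1 / (M : ℝ))) := ⟨_, rfl⟩
    have hY1 : 1 ≤ Y := by
      rw [hY]
      exact le_min hX1 (Real.one_le_rpow hkc (by positivity))
    have hYX : Y ≤ X := by rw [hY]; exact min_le_left _ _
    have hYc : Y ≤ (κ * (s.2.2 : ℝ)) ^ (1 / (M : ℝ)) := by rw [hY]; exact min_le_right _ _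
    have hcXk : (s.2.2 : ℝ) ≤ (X : ℝ) ^ k := by
      have := (hT s (hT0 hs)).2.2.2.1
      exact_mod_cast this
    have hcY : (s.2.2 : ℝ) ^ lam ≤ Y := by
      rw [hY]
      apply le_min
      · calc (s.2.2 : ℝ) ^ lam ≤ ((X : ℝ) ^ k) ^ lam :=
              Real.rpow_le_rpow hcR0.le hcXk hlam0.le
          _ = (X : ℝ) ^ ((k : ℝ) * lam) := by
              rw [← Real.rpow_natCast, ← Real.rpow_mul hX0.le]
          _ ≤ (X : ℝ) ^ (1 : ℝ) := Real.rpow_le_rpow_of_exponent_le hX1 hlamk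
          _ = X := Real.rpow_one _
      · calc (s.2.2 : ℝ) ^ lam ≤ (s.2.2 : ℝ) ^ (1 / (M : ℝ)) :=
              Real.rpow_le_rpow_of_exponent_le hcR hlamM
          _ ≤ _ := by
              apply Real.rpow_le_rpow hcR0.le _ (by positivity)
              nlinarith
    have hcomp : ∀ t ∈ T0, (t.2.2 : ℝ) ≤ κ * (s.2.2 : ℝ) ∧ (s.2.2 : ℝ) ≤ κ * (t.2.2 : ℝ) := by
      intro t ht
      have h1 := num_cmp basics hC ht hs 2
      have h2 := num_cmp basics hC hs ht 2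
      simp only [num] at h1 h2
      constructor
      · rw [hκ]
        exact_mod_cast h1
      · rw [hκ]
        exact_mod_cast h2
    have hradY : ∀ t ∈ T0, (rad (t.1 * t.2.1 * t.2.2) : ℝ) ≤ Y := by
      intro t ht
      obtain ⟨-, h1, h2, -, -⟩ := hT t (hT0 ht)
      rw [hY]
      apply le_min
      · exact_mod_cast h1
      · have h3 : (rad (t.1 * t.2.1 * t.2.2) : ℝ) ^ M ≤ (t.2.2 : ℝ) := by exact_mod_cast h2
        calc (rad (t.1 * t.2.1 * t.2.2) : ℝ)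
            = ((rad (t.1 * t.2.1 * t.2.2) : ℝ) ^ M) ^ (1 / (M : ℝ)) := by
              rw [← Real.rpow_natCast, ← Real.rpow_mul (Nat.cast_nonneg _),
                mul_one_div_cancel hMR.ne', Real.rpow_one]
          _ ≤ _ := Real.rpow_le_rpow (by positivity) (h3.trans (hcomp t ht).1) (by positivity)
    have hscR : (8 : ℝ) ^ (K + 1) ≤ (s.2.2 : ℝ) := by exact_mod_cast hsc.le
    have hk3 : κ * κ * κ = (8 : ℝ) ^ (K + 1) := by
      rw [hκ, ← mul_pow, ← mul_pow]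
      norm_num
    have hYL : ∀ t ∈ T0, Y ^ L ≤ (t.2.2 : ℝ) := by
      intro t ht
      have ht1 : (1 : ℝ) ≤ (t.2.2 : ℝ) := by exact_mod_cast (hC.abc t ht).2.2.1
      have h1 : κ * κ ≤ (t.2.2 : ℝ) := by
        have h2 := (hcomp t ht).2
        have h3 : κ * κ * κ ≤ κ * (t.2.2 : ℝ) := by rw [hk3]; linarith
        have h4 : (κ * κ) * κ ≤ (t.2.2 : ℝ) * κ := by linarith
        exact le_of_mul_le_mul_right h4 (by linarith)
      have hLM : 1 / (M : ℝ) * L ≤ 1 / 2 := by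
        rw [one_div_mul_eq_div, div_le_div_iff₀ hMR (by norm_num)]
        linarith
      calc Y ^ L ≤ ((κ * (s.2.2 : ℝ)) ^ (1 / (M : ℝ))) ^ L :=
            Real.rpow_le_rpow (by linarith) hYc hL0.le
        _ = (κ * (s.2.2 : ℝ)) ^ (1 / (M : ℝ) * L) := by rw [← Real.rpow_mul (by positivity)]
        _ ≤ (κ * (s.2.2 : ℝ)) ^ ((1 : ℝ) / 2) := Real.rpow_le_rpow_of_exponent_le hkc hLM
        _ ≤ ((t.2.2 : ℝ) * (t.2.2 : ℝ)) ^ ((1 : ℝ) / 2) := by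
            apply Real.rpow_le_rpow (by positivity) _ (by norm_num)
            calc κ * (s.2.2 : ℝ) ≤ κ * (κ * (t.2.2 : ℝ)) :=
                  mul_le_mul_of_nonneg_left (hcomp t ht).2 (by linarith)
              _ = (κ * κ) * (t.2.2 : ℝ) := by ring
              _ ≤ (t.2.2 : ℝ) * (t.2.2 : ℝ) := mul_le_mul_of_nonneg_right h1 (by linarith)
        _ = (t.2.2 : ℝ) := by
            rw [← sq, ← Real.rpow_natCast, ← Real.rpow_mul (by linarith)]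
            norm_num
    have h1 := hcell T0 hC s hs W' hW'0 hRW Y hY1 hcY hradY hYL
    have h2 : (s.2.2 : ℝ) ^ (2 * e) ≤ (X : ℝ) ^ (ε / 4) := by
      calc (s.2.2 : ℝ) ^ (2 * e) ≤ ((X : ℝ) ^ k) ^ (2 * e) :=
            Real.rpow_le_rpow hcR0.le hcXk (by positivity)
        _ = (X : ℝ) ^ ((k : ℝ) * (2 * e)) := by
            rw [← Real.rpow_natCast, ← Real.rpow_mul hX0.le]
        _ ≤ (X : ℝ) ^ (ε / 4) := by
            apply Real.rpow_le_rpow_of_exponent_le hX1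
            rw [he]
            have h5 : (k : ℝ) * (2 * (ε / (8 * ((k : ℝ) + 1)))) =
                (ε / 4) * ((k : ℝ) / ((k : ℝ) + 1)) := by
              field_simp
              ring
            rw [h5]
            have h6 : (k : ℝ) / ((k : ℝ) + 1) ≤ 1 := by
              rw [div_le_one hk1]
              linarith
            nlinarith
    have h3 : Y ^ (ε / 4) ≤ (X : ℝ) ^ (ε / 4) :=
      Real.rpow_le_rpow (by linarith) hYX (by positivity)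
    have h4 : (X : ℝ) ^ (ε / 4) * (X : ℝ) ^ (ε / 4) = (X : ℝ) ^ (ε / 2) := by
      rw [← Real.rpow_add hX0]
      congr 1
      ring
    calc (T0.card : ℝ) ≤ D * ((s.2.2 : ℝ) ^ (2 * e) * Y ^ (ε / 4) * W') := h1
      _ ≤ D * ((X : ℝ) ^ (ε / 4) * (X : ℝ) ^ (ε / 4) * W) := by
          apply mul_le_mul_of_nonneg_left _ hD.le
          apply mul_le_mul _ hW'W hW'0 (by positivity)
          exact mul_le_mul h2 h3 (by positivity) (by positivity)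
      _ = D * ((X : ℝ) ^ (ε / 2) * W) := by rw [h4]
      _ ≤ (Ds + D) * ((X : ℝ) ^ (ε / 2) * W) := by
          apply mul_le_mul_of_nonneg_right _ (by positivity)
          linarith
      _ = _ := by ring
  have hN : 1 ≤ X ^ k := Nat.one_le_pow _ _ hX
  have h1 := hdec (X ^ k) hN T (fun t ht => ⟨(hT t ht).1, (hT t ht).2.2.2.1,
    (hT t ht).2.2.2.2⟩) ((Ds + D) * (X : ℝ) ^ (ε / 2) * W) (by positivity) hone
  refine h1.trans ?_
  have h2 : ((X ^ k : ℕ) : ℝ) ^ (ε / (4 * ((k : ℝ) + 1))) ≤ (X : ℝ) ^ (ε / 2) := by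
    rw [Nat.cast_pow, ← Real.rpow_natCast, ← Real.rpow_mul hX0.le]
    apply Real.rpow_le_rpow_of_exponent_le hX1
    have h5 : (k : ℝ) * (ε / (4 * ((k : ℝ) + 1))) = (ε / 4) * ((k : ℝ) / ((k : ℝ) + 1)) := by
      field_simp
    rw [h5]
    have h6 : (k : ℝ) / ((k : ℝ) + 1) ≤ 1 := by
      rw [div_le_one hk1]
      linarith
    nlinarith
  have h4 : (X : ℝ) ^ (ε / 2) * (X : ℝ) ^ (ε / 2) = (X : ℝ) ^ ε := by
    rw [← Real.rpow_add hX0]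
    congr 1
    ring
  calc De * ((X ^ k : ℕ) : ℝ) ^ (ε / (4 * ((k : ℝ) + 1))) * ((Ds + D) * (X : ℝ) ^ (ε / 2) * W)
      ≤ De * (X : ℝ) ^ (ε / 2) * ((Ds + D) * (X : ℝ) ^ (ε / 2) * W) := by
        apply mul_le_mul_of_nonneg_right _ (by positivity)
        exact mul_le_mul_of_nonneg_left h2 hDe.le
    _ = De * (Ds + D) * ((X : ℝ) ^ (ε / 2) * (X : ℝ) ^ (ε / 2)) * W := by ring
    _ = _ := by rw [h4]

end Pool.Agent.X75A
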