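import Mathlib
import Pool.Agent.X75A.Cells

/-!
# The counts in terms of the radicals of the members
-/

set_option autoImplicit false

namespace Pool.Agent.X75A

open Finset Pool.Agent.H785R2.ABC

/-- the swapped triple -/
def sw (t : ℕ × ℕ × ℕ) : ℕ × ℕ × ℕ := (t.2.1, t.1, t.2.2)

lemma sw_inj : Function.Injective sw := by
  rintro ⟨a, b, c⟩ ⟨a', b', c'⟩ h
  simp only [sw, Prod.mk.injEq] at h
  obtain ⟨h1, h2, h3⟩ := h
  rw [h1, h2, h3]

lemma sw_abc {t : ℕ × ℕ × ℕ} (h : IsABCTriple t.1 t.2.1 t.2.2) :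
    IsABCTriple (sw t).1 (sw t).2.1 (sw t).2.2 := by
  obtain ⟨h1, h2, h3, h4, h5, h6, h7⟩ := h
  exact ⟨h2, h1, h3, by simp only [sw]; omega, h5.symm, h7, h6⟩

/-- the data of an exception -/
def Exc (M k X : ℕ) (t : ℕ × ℕ × ℕ) : Prop :=
  IsABCTriple t.1 t.2.1 t.2.2 ∧ rad (t.1 * t.2.1 * t.2.2) ≤ X ∧
    rad (t.1 * t.2.1 * t.2.2) ^ M ≤ t.2.2 ∧ t.2.2 ≤ X ^ k

lemma sw_exc {M k X : ℕ} {t : ℕ × ℕ × ℕ} (h : Exc M k X t) : Exc M k X (sw t) := by
  obtain ⟨h1, h2, h3, h4⟩ := h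
  refine ⟨sw_abc h1, ?_, ?_, h4⟩
  · simp only [sw]
    rw [mul_comm t.2.1 t.1]
    exact h2
  · simp only [sw]
    rw [mul_comm t.2.1 t.1]
    exact h3

/-- a bound for a symmetric property -/
theorem count_sym {M k X : ℕ} (P : ℕ × ℕ × ℕ → Prop) (hP : ∀ t, P t → P (sw t)) {B : ℝ}
    (h : ∀ T : Finset (ℕ × ℕ × ℕ), (∀ t ∈ T, Exc M k X t ∧ t.1 ≤ t.2.1 ∧ P t) →
      (T.card : ℝ) ≤ B) (T : Finset (ℕ × ℕ × ℕ)) (hT : ∀ t ∈ T, Exc M k X t ∧ P t) :
    (T.card : ℝ) ≤ 2 * B := by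
  classical
  have h1 := h (T.filter fun t => t.1 ≤ t.2.1) (fun t ht => by
    rw [mem_filter] at ht
    exact ⟨(hT t ht.1).1, ht.2, (hT t ht.1).2⟩)
  have h2 := h ((T.filter fun t => ¬ t.1 ≤ t.2.1).image sw) (fun t ht => by
    obtain ⟨s, hs, rfl⟩ := mem_image.1 ht
    rw [mem_filter] at hs
    obtain ⟨hs1, hs2⟩ := hs
    refine ⟨sw_exc (hT s hs1).1, ?_, hP s (hT s hs1).2⟩
    simp only [sw]
    omega)
  rw [card_image_of_injective _ sw_inj] at h2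
  have h3 := card_filter_add_card_filter_not (s := T) (fun t => t.1 ≤ t.2.1)
  have h4 : (T.card : ℝ) = ((T.filter fun t => t.1 ≤ t.2.1).card : ℝ) +
      ((T.filter fun t => ¬ t.1 ≤ t.2.1).card : ℝ) := by
    exact_mod_cast h3.symm
  rw [h4]
  linarith

/-- two members have radicals with product at most `Z` -/
def TwoSmall (Z : ℕ) (t : ℕ × ℕ × ℕ) : Prop :=
  ∃ p q : Fin 3, p ≠ q ∧ rad (num t p) * rad (num t q) ≤ Z

/-- a member is `m`, another one has radical at most `W` -/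
def FixSmall (m W : ℕ) (t : ℕ × ℕ × ℕ) : Prop :=
  ∃ p q : Fin 3, p ≠ q ∧ rad (num t p) ≤ W ∧ num t q = m

/-- the permutation of the indices -/
def sp (i : Fin 3) : Fin 3 := if i = 0 then 1 else if i = 1 then 0 else 2

lemma sp_ne {i j : Fin 3} (h : i ≠ j) : sp i ≠ sp j := by
  revert i j
  decide

lemma num_sw (t : ℕ × ℕ × ℕ) (i : Fin 3) : num (sw t) (sp i) = num t i := by
  fin_cases i <;> rfl

lemma twoSmall_sw {Z : ℕ} {t : ℕ × ℕ × ℕ} (h : TwoSmall Z t) : TwoSmall Z (sw t) := by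
  obtain ⟨p, q, hpq, h⟩ := h
  refine ⟨sp p, sp q, sp_ne hpq, ?_⟩
  rw [num_sw, num_sw]
  exact h

lemma fixSmall_sw {m W : ℕ} {t : ℕ × ℕ × ℕ} (h : FixSmall m W t) : FixSmall m W (sw t) := by
  obtain ⟨p, q, hpq, h, h'⟩ := h
  refine ⟨sp p, sp q, sp_ne hpq, ?_, ?_⟩
  · rw [num_sw]
    exact h
  · rw [num_sw]
    exact h'

/-- **The count by the product of two radicals.** -/
theorem count_two_small (ε : ℝ) (hε : 0 < ε) : ∃ M : ℕ, 1 ≤ M ∧ ∀ k : ℕ, ∃ C : ℝ, 0 < C ∧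
    ∀ X Z : ℕ, 1 ≤ X → 1 ≤ Z → ∀ T : Finset (ℕ × ℕ × ℕ),
    (∀ t ∈ T, Exc M k X t ∧ TwoSmall Z t) → (T.card : ℝ) ≤ C * (X : ℝ) ^ ε * Real.sqrt Z := by
  obtain ⟨M, hM, h⟩ := count_of_cells RBox cellBound_box ε hε
  refine ⟨M, hM, fun k => ?_⟩
  obtain ⟨C, K, hC, h⟩ := h k
  refine ⟨2 * C, by positivity, ?_⟩
  intro X Z hX hZ T hT
  have hZ1 : (1 : ℝ) ≤ Z := by exact_mod_cast hZ
  have h1 := count_sym (M := M) (k := k) (X := X) (TwoSmall Z) (fun t => twoSmall_sw)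
    (B := C * (X : ℝ) ^ ε * Real.sqrt Z) (fun T hT => by
      refine h X hX (Real.sqrt Z) (Real.one_le_sqrt.2 hZ1) T (fun t ht => by
        obtain ⟨⟨a1, a2, a3, a4⟩, a5, -⟩ := hT t ht
        exact ⟨a1, a2, a3, a4, a5⟩) ?_
      intro T0 hT0 hC0 s hs
      obtain ⟨-, -, p, q, hpq, hle⟩ := hT s (hT0 hs)
      refine ⟨_, ?_, ?_, p, q, hpq, rfl⟩
      · positivity
      · rw [Real.sqrt_eq_rpow, basics.rd_univ, basics.rd_univ]
        apply Real.rpow_le_rpow (by positivity) _ (by norm_num)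
        exact_mod_cast hle) T hT
  linarith

/-- **The count for a fixed member.** -/
theorem count_fix_small (ε : ℝ) (hε : 0 < ε) : ∃ M : ℕ, 1 ≤ M ∧ ∀ k : ℕ, ∃ C : ℝ, 0 < C ∧
    ∀ X W m : ℕ, 1 ≤ X → 1 ≤ W → ∀ T : Finset (ℕ × ℕ × ℕ),
    (∀ t ∈ T, Exc M k X t ∧ FixSmall m W t) → (T.card : ℝ) ≤ C * (X : ℝ) ^ ε * Real.sqrt W := by
  classical
  obtain ⟨M, hM, h⟩ := count_of_cells RFix cellBound_fix ε hε
  refine ⟨M, hM, fun k => ?_⟩
  obtain ⟨C, K, hC, h⟩ := h k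
  refine ⟨18 * C, by positivity, ?_⟩
  intro X W m hX hW T hT
  have hW1 : (1 : ℝ) ≤ W := by exact_mod_cast hW
  have h1 := count_sym (M := M) (k := k) (X := X) (FixSmall m W) (fun t => fixSmall_sw)
    (B := 9 * (C * (X : ℝ) ^ ε * Real.sqrt W)) (fun T hT => by
      let piece : Fin 3 × Fin 3 → Finset (ℕ × ℕ × ℕ) := fun x => T.filter fun t =>
        x.1 ≠ x.2 ∧ rad (num t x.1) ≤ W ∧ num t x.2 = m
      have hcov : T ⊆ univ.biUnion piece := by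
        intro t ht
        obtain ⟨-, -, p, q, hpq, hle, hm⟩ := hT t ht
        rw [mem_biUnion]
        exact ⟨(p, q), mem_univ _, mem_filter.2 ⟨ht, hpq, hle, hm⟩⟩
      have hpiece : ∀ x, ((piece x).card : ℝ) ≤ C * (X : ℝ) ^ ε * Real.sqrt W := by
        intro x
        refine h X hX (Real.sqrt W) (Real.one_le_sqrt.2 hW1) (piece x) (fun t ht => by
          obtain ⟨⟨a1, a2, a3, a4⟩, a5, -⟩ := hT t (mem_filter.1 ht).1
          exact ⟨a1, a2, a3, a4, a5⟩) ?_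
        intro T0 hT0 hC0 s hs
        obtain ⟨-, hne, hle, hm⟩ := mem_filter.1 (hT0 hs)
        refine ⟨_, ?_, ?_, x.1, x.2, hne, fun t ht => ?_, rfl⟩
        · positivity
        · rw [Real.sqrt_eq_rpow, basics.rd_univ]
          apply Real.rpow_le_rpow (by positivity) _ (by norm_num)
          exact_mod_cast hle
        · rw [hm]
          exact (mem_filter.1 (hT0 ht)).2.2.2
      have h2 : (T.card : ℝ) ≤ ∑ x, ((piece x).card : ℝ) := by
        have h3 := (card_le_card hcov).trans card_biUnion_le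
        exact_mod_cast h3
      calc (T.card : ℝ) ≤ ∑ x, ((piece x).card : ℝ) := h2
        _ ≤ ∑ _x : Fin 3 × Fin 3, C * (X : ℝ) ^ ε * Real.sqrt W :=
            sum_le_sum fun x _ => hpiece x
        _ = _ := by
          rw [sum_const, card_univ, Fintype.card_prod, Fintype.card_fin, nsmul_eq_mul]
          norm_num) T hT
  linarith

end Pool.Agent.X75A
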