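import Mathlib
import Pool.Agent.X75A.Count
import Pool.Agent.H785R2.ABC.A12

/-!
# Exceptions one member of which has a given radical
-/

set_option autoImplicit false

namespace Pool.Agent.X75A

open Finset Pool.Agent.H785R2.ABC Pool.Agent.H785R2.ABC.Fin1

/-- a member has radical `r`, another one has radical at most `W` -/
def RadSmall (r W : ℕ) (t : ℕ × ℕ × ℕ) : Prop :=
  ∃ p q : Fin 3, p ≠ q ∧ rad (num t p) ≤ W ∧ rad (num t q) = r

/-- **The count for a member with a given radical.** -/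
theorem count_rad_small (ε : ℝ) (hε : 0 < ε) : ∃ M : ℕ, 1 ≤ M ∧ ∀ k : ℕ, ∃ C : ℝ, 0 < C ∧
    ∀ X W r : ℕ, 1 ≤ X → 1 ≤ W → ∀ T : Finset (ℕ × ℕ × ℕ),
    (∀ t ∈ T, Exc M k X t ∧ RadSmall r W t) → (T.card : ℝ) ≤ C * (X : ℝ) ^ ε * Real.sqrt W := by
  classical
  obtain ⟨M, hM, h⟩ := count_fix_small (ε / 2) (by positivity)
  refine ⟨M, hM, fun k => ?_⟩
  obtain ⟨C, hC, h⟩ := h k
  have hk1 : (0 : ℝ) < (k : ℝ) + 1 := by positivity
  obtain ⟨D, hD, hA⟩ := stmtA2 (ε / (2 * ((k : ℝ) + 1))) (by positivity)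
  refine ⟨D * C, by positivity, ?_⟩
  intro X W r hX hW T hT
  have hX1 : (1 : ℝ) ≤ X := by exact_mod_cast hX
  have hX0 : (0 : ℝ) < X := by linarith
  have hN : 1 ≤ X ^ k := Nat.one_le_pow _ _ hX
  have hJ := hA (X ^ k) hN r
  set J : Finset ℕ := (Icc 1 (X ^ k)).filter fun d => rad d = r with hJdef
  let piece : ℕ → Finset (ℕ × ℕ × ℕ) := fun m => T.filter fun t => FixSmall m W t
  have hcov : T ⊆ J.biUnion piece := by
    intro t ht
    obtain ⟨⟨habc, -, -, hck⟩, p, q, hpq, hle, hr⟩ := hT t ht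
    rw [mem_biUnion]
    refine ⟨num t q, ?_, mem_filter.2 ⟨ht, p, q, hpq, hle, rfl⟩⟩
    rw [hJdef, mem_filter, mem_Icc]
    exact ⟨⟨num_pos habc q, (num_le habc q).trans hck⟩, hr⟩
  have hpiece : ∀ m, ((piece m).card : ℝ) ≤ C * (X : ℝ) ^ (ε / 2) * Real.sqrt W := by
    intro m
    apply h X W m hX hW
    intro t ht
    rw [mem_filter] at ht
    exact ⟨(hT t ht.1).1, ht.2⟩
  have h2 : (T.card : ℝ) ≤ ∑ m ∈ J, ((piece m).card : ℝ) := by
    have h3 := (card_le_card hcov).trans card_biUnion_le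
    exact_mod_cast h3
  have h4 : ((X ^ k : ℕ) : ℝ) ^ (ε / (2 * ((k : ℝ) + 1))) ≤ (X : ℝ) ^ (ε / 2) := by
    rw [Nat.cast_pow, ← Real.rpow_natCast, ← Real.rpow_mul hX0.le]
    apply Real.rpow_le_rpow_of_exponent_le hX1
    have h5 : (k : ℝ) * (ε / (2 * ((k : ℝ) + 1))) = (ε / 2) * ((k : ℝ) / ((k : ℝ) + 1)) := by
      field_simp
    rw [h5]
    have h6 : (k : ℝ) / ((k : ℝ) + 1) ≤ 1 := by
      rw [div_le_one hk1]
      linarith
    nlinarith
  have hs : 0 ≤ Real.sqrt W := Real.sqrt_nonneg _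
  calc (T.card : ℝ) ≤ ∑ m ∈ J, ((piece m).card : ℝ) := h2
    _ ≤ ∑ _m ∈ J, C * (X : ℝ) ^ (ε / 2) * Real.sqrt W := sum_le_sum fun m _ => hpiece m
    _ = (J.card : ℝ) * (C * (X : ℝ) ^ (ε / 2) * Real.sqrt W) := by
        rw [sum_const, nsmul_eq_mul]
    _ ≤ (D * (X : ℝ) ^ (ε / 2)) * (C * (X : ℝ) ^ (ε / 2) * Real.sqrt W) := by
        apply mul_le_mul_of_nonneg_right _ (by positivity)
        exact hJ.trans (mul_le_mul_of_nonneg_left h4 hD.le)
    _ = D * C * ((X : ℝ) ^ (ε / 2) * (X : ℝ) ^ (ε / 2)) * Real.sqrt W := by ring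
    _ = D * C * (X : ℝ) ^ ε * Real.sqrt W := by
        rw [← Real.rpow_add hX0]
        congr 3
        ring

end Pool.Agent.X75A
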