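import Mathlib
import Pool.Agent.N745.T1.EstD
import Pool.Agent.H785R2.ABC.A345

/-!
# The multiplicative energy of a cell all of whose members are divisible by given primes
-/

set_option autoImplicit false

namespace Pool.Agent.X75A

open Finset Pool.Agent.H785R2.ABC Pool.Agent.H785R2.ABC.EC Pool.Agent.H705R2.ABC

/-- counting integers with a given divisor of the radical -/
def StmtG4 : Prop :=
  ∀ ε : ℝ, 0 < ε → ∃ D : ℝ, 0 < D ∧ ∀ X : ℕ, 1 ≤ X → ∀ R : ℝ, 0 ≤ R → ∀ g : ℕ, 1 ≤ g →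
    (((Icc 1 X).filter fun d => (rad d : ℝ) ≤ R ∧ g ∣ rad d).card : ℝ) ≤ D * (X : ℝ) ^ ε * R / g

theorem stmtG4_of (h3 : StmtA3) : StmtG4 := by
  classical
  intro ε hε
  obtain ⟨D, hD, h⟩ := h3 ε hε
  refine ⟨D, hD, ?_⟩
  intro X hX R hR g hg
  have h1 := h X hX g hg
  have hpos : ∀ d : ℕ, (0 : ℝ) < rad d := fun d => by
    have : 0 < rad d := Finset.prod_pos fun p hp => (Nat.prime_of_mem_primeFactors hp).pos
    exact_mod_cast this
  have h2 : (((Icc 1 X).filter fun d => (rad d : ℝ) ≤ R ∧ g ∣ rad d).card : ℝ) ≤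
      R * ∑ d ∈ (Icc 1 X).filter (fun d => g ∣ rad d), (1 : ℝ) / (rad d : ℝ) := by
    rw [mul_sum, card_eq_sum_ones]
    push_cast
    calc ∑ _d ∈ (Icc 1 X).filter (fun d => (rad d : ℝ) ≤ R ∧ g ∣ rad d), (1 : ℝ)
        ≤ ∑ d ∈ (Icc 1 X).filter (fun d => (rad d : ℝ) ≤ R ∧ g ∣ rad d), R * (1 / (rad d : ℝ)) := by
          apply sum_le_sum
          intro d hd
          rw [mem_filter] at hd
          rw [mul_one_div, le_div_iff₀ (hpos d), one_mul]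
          exact hd.2.1
      _ ≤ ∑ d ∈ (Icc 1 X).filter (fun d => g ∣ rad d), R * (1 / (rad d : ℝ)) := by
          apply sum_le_sum_of_subset_of_nonneg
          · intro d hd
            rw [mem_filter] at hd ⊢
            exact ⟨hd.1, hd.2.2⟩
          · intro d _ _
            have := hpos d
            positivity
  calc _ ≤ _ := h2
    _ ≤ R * (D * (X : ℝ) ^ ε / g) := mul_le_mul_of_nonneg_left h1 hR
    _ = _ := by ring

/-- the energy of the members whose classes are divisible by given integers -/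
theorem energyG (hF : Basics) {K : ℕ} {T0 : Finset (ℕ × ℕ × ℕ)} (hT : Cell K T0)
    {s : ℕ × ℕ × ℕ} (hs : s ∈ T0) {j r : Fin 3} (hjr : j ≠ r) {f : ℕ} {D4 DJ e : ℝ}
    (hD4 : 0 ≤ D4) (hDJ : 0 ≤ DJ)
    (h4 : ∀ X : ℕ, 1 ≤ X → ∀ R : ℝ, 0 ≤ R → ∀ g : ℕ, 1 ≤ g →
      (((Icc 1 X).filter fun d => (rad d : ℝ) ≤ R ∧ g ∣ rad d).card : ℝ) ≤
        D4 * (X : ℝ) ^ e * R / g)
    (hJ : Est.JBody K DJ e) (hf : ∃ t ∈ T0, f ∣ num t r)
    (hfU : (rd K (num s j) univ : ℝ) ^ ((3 : ℝ) / 2) ≤ f)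
    (γ : Fin (K + 1) → ℕ) (Q : Finset (ℕ × ℕ))
    (hQ : ∀ x ∈ Q, (x.1 : ℤ) % f = (x.2 : ℤ) % f ∧
      (∃ t ∈ T0, f ∣ num t r ∧ num t j = x.1) ∧
      (∃ t ∈ T0, f ∣ num t r ∧ num t j = x.2))
    (hγ : ∀ x ∈ Q, ∀ i, γ i ∣ rd K x.1 {i} ∧ γ i ∣ rd K x.2 {i}) :
    (Q.card : ℝ) * ((∏ i, γ i : ℕ) : ℝ) ≤
      (2 * D4 ^ 2 * DJ * ((2 : ℝ) ^ (K + 1)) ^ (3 * K + 2) *
      ((((2 : ℝ) ^ (K + 1)) ^ e) ^ 2 * (((2 : ℝ) ^ (K + 1)) ^ (K + 1)) ^ e)) *
      (s.2.2 : ℝ) ^ (3 * e) * ((rd K (num s j) univ : ℝ) * rd K (num s j) {Fin.last K}) := by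
  classical
  rcases Q.eq_empty_or_nonempty with hQ0 | ⟨q0, hq0⟩
  · rw [hQ0, card_empty, Nat.cast_zero, zero_mul]
    have h1 : (0 : ℝ) < s.2.2 := by exact_mod_cast (hT.abc s hs).2.2.1
    positivity
  obtain ⟨t0, ht0, hft0⟩ := hf
  have hk : (1 : ℝ) ≤ (2 : ℝ) ^ (K + 1) := one_le_pow₀ (by norm_num)
  have hkN : 1 ≤ 2 ^ (K + 1) := Nat.one_le_two_pow
  have hf1 : 1 ≤ f := Nat.pos_of_dvd_of_pos hft0 (num_pos (hT.abc t0 ht0) r)
  have hc1 : 1 ≤ s.2.2 := (hT.abc s hs).2.2.1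
  have hX1 : 1 ≤ 2 ^ (K + 1) * s.2.2 := Nat.mul_pos hkN hc1
  have hfX : f ≤ 2 ^ (K + 1) * s.2.2 :=
    (Nat.le_of_dvd (num_pos (hT.abc t0 ht0) r) hft0).trans (num_le_X hF hT ht0 hs r)
  set kap : ℕ := 2 ^ (K + 1) with hkap
  set X2 : ℕ := kap ^ (K + 1) * s.2.2 with hX2
  have hX12 : kap * s.2.2 ≤ X2 := by
    rw [hX2]
    apply Nat.mul_le_mul_right
    calc kap = kap ^ 1 := (pow_one _).symm
      _ ≤ kap ^ (K + 1) := Nat.pow_le_pow_right hkN (by omega)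
  have hγpos : ∀ i, 1 ≤ γ i := fun i => Nat.pos_of_dvd_of_pos (hγ q0 hq0 i).1 (hF.rd_pos _ _ _)
  have hγle : ∀ i, γ i ≤ kap * rd K (num s j) {i} := by
    intro i
    obtain ⟨-, ⟨t, ht, -, htx⟩, -⟩ := hQ q0 hq0
    have h1 := Nat.le_of_dvd (hF.rd_pos _ _ _) (hγ q0 hq0 i).1
    rw [← htx] at h1
    exact h1.trans (hT.rd_le t ht s hs j {i})
  set N0 : Fin K → ℕ := fun i => kap * rd K (num s j) {i.castSucc} with hN0
  set N : Fin K → ℕ := fun i => N0 i / γ i.castSucc with hN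
  have hN1 : ∀ i, 1 ≤ N i := fun i => Nat.div_pos (hγle _) (hγpos _)
  set R' : ℕ := ∏ i : Fin K, rd K (num s j) {i.castSucc} with hR'
  have hsj1 : 1 ≤ num s j := num_pos (hT.abc s hs) j
  have hprodN0 : ∏ i, N0 i = kap ^ K * R' := by
    rw [hN0, prod_mul_distrib, prod_const, card_univ, Fintype.card_fin]
  have hprodN : ∏ i, N i ≤ kap ^ K * R' := by
    rw [← hprodN0]
    exact prod_le_prod' fun i _ => Nat.div_le_self _ _
  have hRU : R' * rd K (num s j) {Fin.last K} = rd K (num s j) univ := Est.rd_split hF K _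
  have hR1 : 1 ≤ R' := Nat.pos_of_ne_zero (by
    intro h
    rw [h, zero_mul] at hRU
    have := hF.rd_pos K (num s j) univ
    omega)
  have hl1 : 1 ≤ rd K (num s j) {Fin.last K} := hF.rd_pos _ _ _
  have hU1 : 1 ≤ rd K (num s j) univ := hF.rd_pos _ _ _
  have hRU' : R' ≤ rd K (num s j) univ := by rw [← hRU]; exact Nat.le_mul_of_pos_right _ hl1
  have hprodX : ∏ i, N i ≤ X2 := by
    refine hprodN.trans ?_
    rw [hX2]
    apply Nat.mul_le_mul (Nat.pow_le_pow_right hkN (by omega))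
    calc R' ≤ rd K (num s j) univ := hRU'
      _ ≤ num s j := Nat.le_of_dvd hsj1 (Est.rd_dvd_self hF K _ hsj1 univ)
      _ ≤ s.2.2 := num_le (hT.abc s hs) j
  set l : ℝ := (rd K (num s j) {Fin.last K} : ℝ) with hl
  set U : ℝ := (rd K (num s j) univ : ℝ) with hU
  have hfR : (1 : ℝ) ≤ f := by exact_mod_cast hf1
  obtain ⟨gl, hgl⟩ : ∃ gl : ℕ, gl = γ (Fin.last K) := ⟨_, rfl⟩
  have hgl1 : 1 ≤ gl := by rw [hgl]; exact hγpos _
  have hglR : (0 : ℝ) < gl := by exact_mod_cast hgl1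
  -- the set of possible last parts
  set Y : Finset ℕ := (Icc 1 (kap * s.2.2)).filter fun d => (rad d : ℝ) ≤ 2 ^ (K + 1) * l ∧
    gl ∣ rad d with hY
  have hYcard : (Y.card : ℝ) ≤ D4 * ((kap * s.2.2 : ℕ) : ℝ) ^ e * (2 ^ (K + 1) * l) / gl :=
    h4 _ hX1 _ (by positivity) gl hgl1
  -- facts on members
  have hmem : ∀ n : ℕ, (∃ t ∈ T0, f ∣ num t r ∧ num t j = n) → (∀ i, γ i ∣ rd K n {i}) →
      1 ≤ n ∧ Nat.Coprime n f ∧ part K n {Fin.last K} ∈ Y ∧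
      (∀ i : Fin K, 1 ≤ rd K n {i.castSucc} / γ i.castSucc ∧
        rd K n {i.castSucc} / γ i.castSucc ≤ N i ∧
        Nat.Coprime (rd K n {i.castSucc} / γ i.castSucc) f ∧
        Nat.Coprime (γ i.castSucc) f) ∧ Nat.Coprime (part K n {Fin.last K}) f := by
    rintro n ⟨t, ht, htf, rfl⟩ hγn
    have hn := num_pos (hT.abc t ht) j
    have hco : Nat.Coprime (num t j) f :=
      Nat.Coprime.coprime_dvd_right htf (num_coprime (hT.abc t ht) hjr)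
    refine ⟨hn, hco, ?_, ?_, ?_⟩
    · rw [hY, mem_filter, mem_Icc]
      refine ⟨⟨hF.part_pos K _ _, (Nat.le_of_dvd hn (hF.part_dvd K _ _ hn)).trans
        (num_le_X hF hT ht hs j)⟩, ?_, ?_⟩
      · rw [hF.rad_part K _ _ hn, hl]
        exact_mod_cast hT.rd_le t ht s hs j {Fin.last K}
      · rw [hF.rad_part K _ _ hn, hgl]
        exact hγn _
    · intro i
      have hrco : Nat.Coprime (rd K (num t j) {i.castSucc}) f :=
        Nat.Coprime.coprime_dvd_left (Est.rd_dvd_self hF K _ hn _) hco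
      refine ⟨Nat.div_pos (Nat.le_of_dvd (hF.rd_pos _ _ _) (hγn _)) (hγpos _),
        Nat.div_le_div_right (hT.rd_le t ht s hs j _),
        Nat.Coprime.coprime_dvd_left (Nat.div_dvd_of_dvd (hγn _)) hrco,
        Nat.Coprime.coprime_dvd_left (hγn _) hrco⟩
    · exact Nat.Coprime.coprime_dvd_left (hF.part_dvd K _ _ hn) hco
  set W : ℝ := DJ * (X2 : ℝ) ^ e *
      ((∏ i, (N i : ℝ)) * (1 + (∏ i, (N i : ℝ)) ^ ((3 : ℝ) / 2) / f)) with hW
  have hW0 : 0 ≤ W := by rw [hW]; positivity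
  have hfib : ∀ z ∈ Y ×ˢ Y, ((Q.filter fun x => (part K x.1 {Fin.last K}, part K x.2 {Fin.last K}) = z).card : ℝ)
      ≤ W := by
    intro z _
    set Qz := Q.filter fun x => (part K x.1 {Fin.last K}, part K x.2 {Fin.last K}) = z with hQz
    rcases Qz.eq_empty_or_nonempty with h0 | ⟨x0, hx0⟩
    · rw [h0]; simpa using hW0
    have hQzm : ∀ x ∈ Qz, x ∈ Q ∧ part K x.1 {Fin.last K} = z.1 ∧ part K x.2 {Fin.last K} = z.2 := by
      intro x hx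
      rw [hQz, mem_filter] at hx
      exact ⟨hx.1, congrArg Prod.fst hx.2, congrArg Prod.snd hx.2⟩
    obtain ⟨hx0Q, hx01, hx02⟩ := hQzm x0 hx0
    have hz1 : Nat.Coprime z.1 f := by
      rw [← hx01]; exact (hmem _ (hQ x0 hx0Q).2.1 fun i => (hγ x0 hx0Q i).1).2.2.2.2
    have hz2 : Nat.Coprime z.2 f := by
      rw [← hx02]; exact (hmem _ (hQ x0 hx0Q).2.2 fun i => (hγ x0 hx0Q i).2).2.2.2.2
    have hγco : ∀ i : Fin K, Nat.Coprime (γ i.castSucc) f := fun i =>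
      ((hmem _ (hQ x0 hx0Q).2.1 fun i => (hγ x0 hx0Q i).1).2.2.2.1 i).2.2.2
    set G : ℕ × ℕ → (Fin K → ℕ) × (Fin K → ℕ) :=
      fun x => (fun i => rd K x.1 {i.castSucc} / γ i.castSucc,
        fun i => rd K x.2 {i.castSucc} / γ i.castSucc) with hG
    have hback : ∀ (n n' : ℕ) (i : Fin K), (∀ i, γ i ∣ rd K n {i}) → (∀ i, γ i ∣ rd K n' {i}) →
        rd K n {i.castSucc} / γ i.castSucc = rd K n' {i.castSucc} / γ i.castSucc →
        rd K n {i.castSucc} = rd K n' {i.castSucc} := by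
      intro n n' i h1 h2 h3
      rw [← Nat.mul_div_cancel' (h1 i.castSucc), ← Nat.mul_div_cancel' (h2 i.castSucc), h3]
    have hinj : Set.InjOn G Qz := by
      intro x hx x' hx' hxx
      obtain ⟨hxQ, hx1, hx2⟩ := hQzm x hx
      obtain ⟨hxQ', hx1', hx2'⟩ := hQzm x' hx'
      have e1 := congrArg Prod.fst hxx
      have e2 := congrArg Prod.snd hxx
      simp only [hG] at e1 e2
      have a1 : ∀ i, γ i ∣ rd K x.1 {i} := fun i => (hγ x hxQ i).1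
      have a2 : ∀ i, γ i ∣ rd K x.2 {i} := fun i => (hγ x hxQ i).2
      have b1 : ∀ i, γ i ∣ rd K x'.1 {i} := fun i => (hγ x' hxQ' i).1
      have b2 : ∀ i, γ i ∣ rd K x'.2 {i} := fun i => (hγ x' hxQ' i).2
      apply Prod.ext
      · rw [Est.fact hF K x.1 (hmem _ (hQ x hxQ).2.1 a1).1,
          Est.fact hF K x'.1 (hmem _ (hQ x' hxQ').2.1 b1).1, hx1, hx1']
        congr 1
        apply prod_congr rfl
        intro i _
        rw [hback _ _ i a1 b1 (congrFun e1 i)]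
      · rw [Est.fact hF K x.2 (hmem _ (hQ x hxQ).2.2 a2).1,
          Est.fact hF K x'.2 (hmem _ (hQ x' hxQ').2.2 b2).1, hx2, hx2']
        congr 1
        apply prod_congr rfl
        intro i _
        rw [hback _ _ i a2 b2 (congrFun e2 i)]
    rw [← card_image_of_injOn hinj]
    set u := ZMod.unitOfCoprime z.1 hz1 with hu
    set u' := ZMod.unitOfCoprime z.2 hz2 with hu'
    apply hJ X2 f (hX1.trans hX12) hf1 (hfX.trans hX12) N hN1 hprodX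
      ((u' : ZMod f) * ((u⁻¹ : (ZMod f)ˣ) : ZMod f)) (u'.isUnit.mul (u⁻¹).isUnit)
    intro y hy
    obtain ⟨x, hx, rfl⟩ := mem_image.1 hy
    obtain ⟨hxQ, hx1, hx2⟩ := hQzm x hx
    obtain ⟨hcong, hm1, hm2⟩ := hQ x hxQ
    have a1 : ∀ i, γ i ∣ rd K x.1 {i} := fun i => (hγ x hxQ i).1
    have a2 : ∀ i, γ i ∣ rd K x.2 {i} := fun i => (hγ x hxQ i).2
    obtain ⟨hp1, -, -, hr1, -⟩ := hmem _ hm1 a1
    obtain ⟨hp2, -, -, hr2, -⟩ := hmem _ hm2 a2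
    refine ⟨fun i => ⟨(hr1 i).1, (hr1 i).2.1, (hr1 i).2.2.1⟩,
      fun i => ⟨(hr2 i).1, (hr2 i).2.1, (hr2 i).2.2.1⟩, ?_⟩
    have h5 : ((x.1 : ℤ) : ZMod f) = ((x.2 : ℤ) : ZMod f) :=
      (ZMod.intCast_eq_intCast_iff' _ _ f).2 hcong
    have h6 : (x.1 : ZMod f) = (x.2 : ZMod f) := by exact_mod_cast h5
    rw [Est.fact hF K x.1 hp1, Est.fact hF K x.2 hp2, hx1, hx2] at h6
    push_cast at h6
    have hu1 : (u : ZMod f) = (z.1 : ZMod f) := ZMod.coe_unitOfCoprime _ _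
    have hu2 : (u' : ZMod f) = (z.2 : ZMod f) := ZMod.coe_unitOfCoprime _ _
    rw [← hu1, ← hu2] at h6
    show ∏ i : Fin K, ((rd K x.1 {i.castSucc} / γ i.castSucc : ℕ) : ZMod f) ^ ((i : ℕ) + 1) =
      (u' : ZMod f) * ((u⁻¹ : (ZMod f)ˣ) : ZMod f) *
        ∏ i : Fin K, ((rd K x.2 {i.castSucc} / γ i.castSucc : ℕ) : ZMod f) ^ ((i : ℕ) + 1)
    have h7 : (u : ZMod f) * ((u⁻¹ : (ZMod f)ˣ) : ZMod f) = 1 := Units.mul_inv u
    -- cancel the fixed divisors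
    set Γ : ZMod f := ∏ i : Fin K, ((γ i.castSucc : ℕ) : ZMod f) ^ ((i : ℕ) + 1) with hΓ
    have hΓu : IsUnit Γ := by
      rw [hΓ]
      refine Finset.prod_induction _ IsUnit (fun a b ha hb => ha.mul hb) isUnit_one ?_
      intro i _
      exact ((ZMod.isUnit_iff_coprime _ _).2 (hγco i)).pow _
    have hsplit : ∀ n : ℕ, (∀ i, γ i ∣ rd K n {i}) →
        ∏ i : Fin K, ((rd K n {i.castSucc} : ℕ) : ZMod f) ^ ((i : ℕ) + 1) =
        Γ * ∏ i : Fin K, ((rd K n {i.castSucc} / γ i.castSucc : ℕ) : ZMod f) ^ ((i : ℕ) + 1) := by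
      intro n hn
      rw [hΓ, ← prod_mul_distrib]
      apply prod_congr rfl
      intro i _
      rw [← mul_pow, ← Nat.cast_mul, Nat.mul_div_cancel' (hn i.castSucc)]
    rw [hsplit x.1 a1, hsplit x.2 a2] at h6
    apply hΓu.mul_left_cancel
    calc Γ * ∏ i : Fin K, ((rd K x.1 {i.castSucc} / γ i.castSucc : ℕ) : ZMod f) ^ ((i : ℕ) + 1)
        = (Γ * ∏ i : Fin K, ((rd K x.1 {i.castSucc} / γ i.castSucc : ℕ) : ZMod f) ^
            ((i : ℕ) + 1)) * (u : ZMod f) * ((u⁻¹ : (ZMod f)ˣ) : ZMod f) := by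
          rw [mul_assoc _ (u : ZMod f), h7, mul_one]
      _ = _ := by rw [h6]; ring
  have hsum : Q.card = ∑ z ∈ Y ×ˢ Y,
      (Q.filter fun x => (part K x.1 {Fin.last K}, part K x.2 {Fin.last K}) = z).card := by
    apply card_eq_sum_card_fiberwise
    intro x hx
    have hx' : x ∈ Q := hx
    have h5 := (hmem _ (hQ x hx').2.1 fun i => (hγ x hx' i).1).2.2.1
    have h6 := (hmem _ (hQ x hx').2.2 fun i => (hγ x hx' i).2).2.2.1
    show (part K x.1 {Fin.last K}, part K x.2 {Fin.last K}) ∈ ((Y ×ˢ Y : Finset (ℕ × ℕ)) : Set (ℕ × ℕ))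
    rw [mem_coe, mem_product]
    exact ⟨h5, h6⟩
  have hcard : (Q.card : ℝ) ≤ (Y.card : ℝ) ^ 2 * W := by
    rw [hsum]
    push_cast
    calc _ ≤ ∑ _z ∈ Y ×ˢ Y, W := sum_le_sum hfib
      _ = (Y.card : ℝ) ^ 2 * W := by
        rw [sum_const, card_product, nsmul_eq_mul]; push_cast; ring
  -- final numeric estimate
  have hkR : ((kap : ℕ) : ℝ) = (2 : ℝ) ^ (K + 1) := by rw [hkap]; push_cast; rfl
  set g' : ℝ := ∏ i : Fin K, ((γ i.castSucc : ℕ) : ℝ) with hg'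
  have hg'1 : 0 < g' := prod_pos fun i _ => by exact_mod_cast hγpos _
  have hprodNR : (∏ i, (N i : ℝ)) ≤ ((2 : ℝ) ^ (K + 1)) ^ K * R' / g' := by
    have h9 : ((∏ i, N0 i : ℕ) : ℝ) = ((kap ^ K * R' : ℕ) : ℝ) := by rw [hprodN0]
    rw [Nat.cast_prod, Nat.cast_mul, Nat.cast_pow, hkR] at h9
    rw [← h9, hg', ← prod_div_distrib]
    apply prod_le_prod
    · intro i _; positivity
    · intro i _
      exact Nat.cast_div_le
  set k : ℝ := (2 : ℝ) ^ (K + 1) with hkdef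
  have hk0 : 0 < k := by positivity
  have hcR : (0 : ℝ) < s.2.2 := by exact_mod_cast hc1
  have hRr1 : (1 : ℝ) ≤ (R' : ℝ) := by exact_mod_cast hR1
  have hRUr : (R' : ℝ) ≤ U := by rw [hU]; exact_mod_cast hRU'
  have hRUl : (R' : ℝ) * l = U := by rw [hl, hU]; exact_mod_cast hRU
  have hl0 : 0 < l := by rw [hl]; exact_mod_cast hl1
  have hU0 : 0 < U := by rw [hU]; exact_mod_cast hU1
  have hbr : 1 + (∏ i, (N i : ℝ)) ^ ((3 : ℝ) / 2) / f ≤ 2 * k ^ (2 * K) := by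
    have e0 : (∏ i, (N i : ℝ)) ≤ k ^ K * (R' : ℝ) := by
      have h9 : ((∏ i, N i : ℕ) : ℝ) ≤ ((kap ^ K * R' : ℕ) : ℝ) := by exact_mod_cast hprodN
      rw [Nat.cast_prod, Nat.cast_mul, Nat.cast_pow, hkR] at h9
      exact h9
    have e1 : (∏ i, (N i : ℝ)) ^ ((3 : ℝ) / 2) ≤ k ^ (2 * K) * U ^ ((3 : ℝ) / 2) := by
      refine (Real.rpow_le_rpow (by positivity) e0 (by norm_num)).trans ?_
      rw [Real.mul_rpow (by positivity) (by positivity)]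
      apply mul_le_mul
      · have h8 : (1 : ℝ) ≤ k ^ K := one_le_pow₀ hk
        calc (k ^ K) ^ ((3 : ℝ) / 2) ≤ (k ^ K) ^ (2 : ℝ) :=
              Real.rpow_le_rpow_of_exponent_le h8 (by norm_num)
          _ = k ^ (2 * K) := by
            rw [Real.rpow_two, ← pow_mul, mul_comm]
      · exact Real.rpow_le_rpow (by positivity) hRUr (by norm_num)
      · positivity
      · positivity
    have e3 : (∏ i, (N i : ℝ)) ^ ((3 : ℝ) / 2) / f ≤ k ^ (2 * K) := by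
      rw [div_le_iff₀ (by linarith)]
      exact e1.trans (mul_le_mul_of_nonneg_left hfU (by positivity))
    have e4 : (1 : ℝ) ≤ k ^ (2 * K) := one_le_pow₀ hk
    linarith
  have hXe1 : ((kap * s.2.2 : ℕ) : ℝ) ^ e = k ^ e * (s.2.2 : ℝ) ^ e := by
    rw [Nat.cast_mul, hkR, Real.mul_rpow hk0.le hcR.le]
  have hXe2 : (X2 : ℝ) ^ e = (k ^ (K + 1)) ^ e * (s.2.2 : ℝ) ^ e := by
    rw [hX2, Nat.cast_mul, Nat.cast_pow, hkR, Real.mul_rpow (by positivity) hcR.le]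
  have hce : (s.2.2 : ℝ) ^ (3 * e) = ((s.2.2 : ℝ) ^ e) ^ 3 := by
    rw [← Real.rpow_natCast, ← Real.rpow_mul hcR.le]
    congr 1
    push_cast; ring
  have hglow : (1 : ℝ) ≤ gl := by exact_mod_cast hgl1
  have hY2 : (Y.card : ℝ) ^ 2 ≤ (D4 * (k ^ e * (s.2.2 : ℝ) ^ e) * (k * l)) ^ 2 / gl := by
    calc (Y.card : ℝ) ^ 2 ≤ (D4 * (k ^ e * (s.2.2 : ℝ) ^ e) * (k * l) / gl) ^ 2 := by
          apply pow_le_pow_left₀ (Nat.cast_nonneg _)
          rw [← hXe1]; exact hYcard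
      _ = (D4 * (k ^ e * (s.2.2 : ℝ) ^ e) * (k * l)) ^ 2 / gl / gl := by ring
      _ ≤ (D4 * (k ^ e * (s.2.2 : ℝ) ^ e) * (k * l)) ^ 2 / gl :=
          div_le_self (by positivity) hglow
  have hWle : W ≤ DJ * ((k ^ (K + 1)) ^ e * (s.2.2 : ℝ) ^ e) *
      ((k ^ K * R' / g') * (2 * k ^ (2 * K))) := by
    rw [hW, hXe2]
    apply mul_le_mul_of_nonneg_left _ (by positivity)
    apply mul_le_mul hprodNR hbr (by positivity) (by positivity)
  have hprodγ : ((∏ i, γ i : ℕ) : ℝ) = g' * gl := by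
    rw [Fin.prod_univ_castSucc, Nat.cast_mul, Nat.cast_prod, hg', hgl]
  rw [hprodγ]
  have hg'ne : g' ≠ 0 := hg'1.ne'
  have hglne : (gl : ℝ) ≠ 0 := hglR.ne'
  calc (Q.card : ℝ) * (g' * gl) ≤ ((Y.card : ℝ) ^ 2 * W) * (g' * gl) :=
        mul_le_mul_of_nonneg_right hcard (by positivity)
    _ ≤ (((D4 * (k ^ e * (s.2.2 : ℝ) ^ e) * (k * l)) ^ 2 / gl) *
        (DJ * ((k ^ (K + 1)) ^ e * (s.2.2 : ℝ) ^ e) *
      ((k ^ K * R' / g') * (2 * k ^ (2 * K))))) * (g' * gl) := by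
        apply mul_le_mul_of_nonneg_right _ (by positivity)
        exact mul_le_mul hY2 hWle hW0 (by positivity)
    _ = (2 * D4 ^ 2 * DJ * k ^ (3 * K + 2) * ((k ^ e) ^ 2 * (k ^ (K + 1)) ^ e)) *
      ((s.2.2 : ℝ) ^ e) ^ 3 * ((R' * l) * l) := by
        field_simp
        ring
    _ = _ := by
      rw [hRUl, ← hce]

end Pool.Agent.X75A
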