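import Mathlib
import Pool.Agent.X75A.EnG
import Pool.Agent.H705R2.ABC.Fac

/-!
# Cauchy-Schwarz for members divisible by given primes
-/

set_option autoImplicit false

namespace Pool.Agent.X75A

open Finset Pool.Agent.H785R2.ABC Pool.Agent.H785R2.ABC.EC Pool.Agent.H705R2.ABC

lemma gcd_prod {ι : Type*} [DecidableEq ι] (d : ℕ) (s : Finset ι) (r : ι → ℕ)
    (h : ∀ i ∈ s, ∀ j ∈ s, i ≠ j → Nat.Coprime (r i) (r j)) :
    Nat.gcd d (∏ i ∈ s, r i) = ∏ i ∈ s, Nat.gcd d (r i) := by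
  induction s using Finset.induction_on with
  | empty => simp
  | insert a s ha ih =>
    rw [prod_insert ha, prod_insert ha, Nat.Coprime.gcd_mul, ih]
    · intro i hi j hj hij
      exact h i (mem_insert_of_mem hi) j (mem_insert_of_mem hj) hij
    · apply Nat.Coprime.prod_right
      intro i hi
      exact h a (mem_insert_self _ _) i (mem_insert_of_mem hi) (by rintro rfl; exact ha hi)

lemma rd_coprime (K n : ℕ) {i j : Fin (K + 1)} (hij : i ≠ j) :
    Nat.Coprime (rd K n {i}) (rd K n {j}) := by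
  unfold rd
  apply Nat.Coprime.prod_left
  intro p hp
  apply Nat.Coprime.prod_right
  intro q hq
  unfold pf at hp hq
  rw [mem_filter, mem_singleton] at hp hq
  apply (Nat.coprime_primes (Nat.prime_of_mem_primeFactors hp.1)
    (Nat.prime_of_mem_primeFactors hq.1)).2
  rintro rfl
  exact hij (hp.2.symm.trans hq.2)

/-- the pattern of a divisor of the radical -/
def pat (K d n : ℕ) : Fin (K + 1) → ℕ := fun i => Nat.gcd d (rd K n {i})

lemma pat_prod (hF : Basics) {K d n : ℕ} (h : d ∣ rd K n univ) : ∏ i, pat K d n i = d := by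
  classical
  unfold pat
  rw [← gcd_prod d univ (fun i => rd K n {i}) (fun i _ j _ hij => rd_coprime K n hij),
    ← hF.rd_prod]
  exact Nat.gcd_eq_left h

lemma pat_dvd (K d n : ℕ) (i : Fin (K + 1)) : pat K d n i ∣ rd K n {i} := Nat.gcd_dvd_right _ _

theorem estG (hF : Basics) (hG4 : StmtG4) (hJ : StmtJ) (K : ℕ) (ε : ℝ) (hε : 0 < ε) :
    ∃ D : ℝ, 0 < D ∧ ∀ T0 : Finset (ℕ × ℕ × ℕ), Cell K T0 → ∀ s ∈ T0,
    ∀ p q r : Fin 3, p ≠ q → q ≠ r → p ≠ r → ∀ f : ℕ,
    (rd K (num s p) univ : ℝ) ^ ((3 : ℝ) / 2) ≤ f → (rd K (num s q) univ : ℝ) ^ ((3 : ℝ) / 2) ≤ f →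
    ∀ dp dq : ℕ, 1 ≤ dp → 1 ≤ dq →
    ∀ T : Finset (ℕ × ℕ × ℕ), T ⊆ T0 → (∀ t ∈ T, f ∣ num t r) →
    (∀ t ∈ T, dp ∣ rd K (num t p) univ ∧ dq ∣ rd K (num t q) univ) →
    (T.card : ℝ) ≤ D * (s.2.2 : ℝ) ^ ε *
      (((rd K (num s p) univ : ℝ) * rd K (num s p) {Fin.last K} / dp) *
       ((rd K (num s q) univ : ℝ) * rd K (num s q) {Fin.last K} / dq)) ^ ((1 : ℝ) / 2) := by
  classical
  obtain ⟨e, he⟩ : ∃ e : ℝ, e = ε / 5 := ⟨_, rfl⟩
  have he0 : 0 < e := by rw [he]; positivity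
  obtain ⟨D4, hD4, h4⟩ := hG4 e he0
  obtain ⟨DJ, hDJ, hJ'⟩ := hJ K e he0
  obtain ⟨DF, hDF, hFac⟩ := stmtFac (K + 1) e he0
  have hJB : Est.JBody K DJ e := hJ'
  obtain ⟨k, hk⟩ : ∃ k : ℝ, k = (2 : ℝ) ^ (K + 1) := ⟨_, rfl⟩
  have hk1 : 1 ≤ k := by rw [hk]; exact one_le_pow₀ (by norm_num)
  obtain ⟨M, hM⟩ : ∃ M : ℝ, M = 2 * D4 ^ 2 * DJ * ((2 : ℝ) ^ (K + 1)) ^ (3 * K + 2) *
      ((((2 : ℝ) ^ (K + 1)) ^ e) ^ 2 * (((2 : ℝ) ^ (K + 1)) ^ (K + 1)) ^ e) := ⟨_, rfl⟩
  have hM0 : 0 < M := by rw [hM]; positivity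
  refine ⟨(DF * k ^ e) ^ 2 * M, by positivity, ?_⟩
  intro T0 hT s hs p q r hpq hqr hpr f hfp hfq dp dq hdp hdq T hTT hTf hTd
  have hs0 : (0 : ℝ) < s.2.2 := by exact_mod_cast (hT.abc s hs).2.2.1
  have hdpR : (0 : ℝ) < dp := by exact_mod_cast hdp
  have hdqR : (0 : ℝ) < dq := by exact_mod_cast hdq
  obtain ⟨sp, hsp⟩ : ∃ sp : ℝ, sp = (rd K (num s p) univ : ℝ) * rd K (num s p) {Fin.last K} :=
    ⟨_, rfl⟩
  obtain ⟨sq', hsq⟩ : ∃ sq' : ℝ, sq' = (rd K (num s q) univ : ℝ) * rd K (num s q) {Fin.last K} :=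
    ⟨_, rfl⟩
  have hsp0 : 0 ≤ sp := by rw [hsp]; positivity
  have hsq0 : 0 ≤ sq' := by rw [hsq]; positivity
  rw [← hsp, ← hsq]
  obtain ⟨V, hV⟩ : ∃ V : ℝ, V = ((sp / dp) * (sq' / dq)) ^ ((1 : ℝ) / 2) := ⟨_, rfl⟩
  have hV0 : 0 ≤ V := by rw [hV]; positivity
  rw [← hV]
  rcases T.eq_empty_or_nonempty with h0 | ⟨t0, ht0⟩
  · rw [h0]
    simp only [card_empty, Nat.cast_zero]
    positivity
  -- the patterns
  have hbd : ∀ (j : Fin 3) (d : ℕ), 1 ≤ d → (∀ t ∈ T, d ∣ rd K (num t j) univ) →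
      ((T.image fun t => pat K d (num t j)).card : ℝ) ≤ DF * (k ^ e * (s.2.2 : ℝ) ^ e) := by
    intro j d hd hTd
    have h1 := hFac d hd (T.image fun t => pat K d (num t j)) (by
      intro x hx
      obtain ⟨t, ht, rfl⟩ := mem_image.1 hx
      exact pat_prod hF (hTd t ht))
    refine h1.trans ?_
    apply mul_le_mul_of_nonneg_left _ hDF.le
    have h2 : d ≤ 2 ^ (K + 1) * s.2.2 := by
      have h3 := hTT ht0
      have hn := num_pos (hT.abc t0 h3) j
      exact (Nat.le_of_dvd hn ((hTd t0 ht0).trans (Est.rd_dvd_self hF K _ hn _))).trans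
        (num_le_X hF hT h3 hs j)
    have h3 : (d : ℝ) ≤ k * (s.2.2 : ℝ) := by
      rw [hk]
      exact_mod_cast h2
    rw [← Real.mul_rpow (by linarith) hs0.le]
    exact Real.rpow_le_rpow (Nat.cast_nonneg _) h3 he0.le
  set A : ℝ := M * (s.2.2 : ℝ) ^ (3 * e) with hA
  have hA0 : 0 ≤ A := by rw [hA]; positivity
  -- one pair of patterns
  have hone : ∀ γ γ' : Fin (K + 1) → ℕ,
      ((T.filter fun t => pat K dp (num t p) = γ ∧ pat K dq (num t q) = γ').card : ℝ) ≤ A * V := by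
    intro γ γ'
    set T1 := T.filter fun t => pat K dp (num t p) = γ ∧ pat K dq (num t q) = γ' with hT1
    rcases T1.eq_empty_or_nonempty with h0 | ⟨t1, ht1⟩
    · rw [h0, card_empty, Nat.cast_zero]
      positivity
    have hm : ∀ t ∈ T1, t ∈ T ∧ pat K dp (num t p) = γ ∧ pat K dq (num t q) = γ' := fun t ht => by
      rw [hT1, mem_filter] at ht
      exact ht
    have hγp : ∏ i, γ i = dp := by
      obtain ⟨a1, a2, -⟩ := hm t1 ht1
      rw [← a2]
      exact pat_prod hF (hTd t1 a1).1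
    have hγq : ∏ i, γ' i = dq := by
      obtain ⟨a1, -, a2⟩ := hm t1 ht1
      rw [← a2]
      exact pat_prod hF (hTd t1 a1).2
    set P := T1.image fun t => num t p with hP
    set Q := T1.image fun t => num t q with hQd
    set κP : ℕ → ℤ := fun n => (sg r * (n : ℤ)) % (f : ℤ) with hκP
    set κQ : ℕ → ℤ := fun m => (m : ℤ) % (f : ℤ) with hκQ
    have hcard : T1.card ≤ ((P ×ˢ Q).filter fun t => κP t.1 = κQ t.2).card := by
      have h1 : (T1.image fun t => (num t p, num t q)).card = T1.card := by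
        apply card_image_of_injOn
        intro t ht t' ht' htt
        simp only [Prod.mk.injEq] at htt
        exact num_inj (hT.abc t (hTT (hm t ht).1)) (hT.abc t' (hTT (hm t' ht').1)) hpq htt.1 htt.2
      rw [← h1]
      apply card_le_card
      intro x hx
      obtain ⟨t, ht, rfl⟩ := mem_image.1 hx
      have h2 := num_dvd (hT.abc t (hTT (hm t ht).1)) hpq hqr hpr (f := f) (hTf t (hm t ht).1)
      rw [mem_filter, mem_product]
      exact ⟨⟨mem_image_of_mem _ ht, mem_image_of_mem _ ht⟩, h2⟩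
    have hT1T : ∀ t ∈ T1, t ∈ T0 := fun t ht => hTT (hm t ht).1
    have hT1f : ∀ t ∈ T1, f ∣ num t r := fun t ht => hTf t (hm t ht).1
    have hEP : ((((P ×ˢ P).filter fun t => κP t.1 = κP t.2).card : ℕ) : ℝ) * dp ≤ A * sp := by
      rw [hA, hM, hsp, ← hγp]
      refine energyG hF hT hs hpr hD4.le hDJ.le h4 hJB ⟨t1, hT1T t1 ht1, hT1f t1 ht1⟩ hfp γ _ ?_ ?_
      · intro x hx
        rw [mem_filter, mem_product] at hx
        obtain ⟨⟨hx1, hx2⟩, hx4⟩ := hx
        obtain ⟨t, ht, htx⟩ := mem_image.1 hx1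
        obtain ⟨t', ht', htx'⟩ := mem_image.1 hx2
        refine ⟨?_, ⟨t, hT1T t ht, hT1f t ht, htx⟩, ⟨t', hT1T t' ht', hT1f t' ht', htx'⟩⟩
        have h1 : sg r * (x.1 : ℤ) ≡ sg r * (x.2 : ℤ) [ZMOD (f : ℤ)] := hx4
        have h2 : sg r * sg r = 1 := by unfold sg; split_ifs <;> norm_num
        have h3 := h1.mul_left (sg r)
        rw [← mul_assoc, ← mul_assoc, h2, one_mul, one_mul] at h3
        exact h3
      · intro x hx i
        rw [mem_filter, mem_product] at hx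
        obtain ⟨⟨hx1, hx2⟩, hx4⟩ := hx
        obtain ⟨t, ht, htx⟩ := mem_image.1 hx1
        obtain ⟨t', ht', htx'⟩ := mem_image.1 hx2
        constructor
        · rw [← (hm t ht).2.1, ← htx]
          exact pat_dvd _ _ _ _
        · rw [← (hm t' ht').2.1, ← htx']
          exact pat_dvd _ _ _ _
    have hEQ : ((((Q ×ˢ Q).filter fun t => κQ t.1 = κQ t.2).card : ℕ) : ℝ) * dq ≤ A * sq' := by
      rw [hA, hM, hsq, ← hγq]
      refine energyG hF hT hs hqr hD4.le hDJ.le h4 hJB ⟨t1, hT1T t1 ht1, hT1f t1 ht1⟩ hfq γ' _ ?_ ?_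
      · intro x hx
        rw [mem_filter, mem_product] at hx
        obtain ⟨⟨hx1, hx2⟩, hx4⟩ := hx
        obtain ⟨t, ht, htx⟩ := mem_image.1 hx1
        obtain ⟨t', ht', htx'⟩ := mem_image.1 hx2
        exact ⟨hx4, ⟨t, hT1T t ht, hT1f t ht, htx⟩, ⟨t', hT1T t' ht', hT1f t' ht', htx'⟩⟩
      · intro x hx i
        rw [mem_filter, mem_product] at hx
        obtain ⟨⟨hx1, hx2⟩, hx4⟩ := hx
        obtain ⟨t, ht, htx⟩ := mem_image.1 hx1
        obtain ⟨t', ht', htx'⟩ := mem_image.1 hx2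
        constructor
        · rw [← (hm t ht).2.2, ← htx]
          exact pat_dvd _ _ _ _
        · rw [← (hm t' ht').2.2, ← htx']
          exact pat_dvd _ _ _ _
    have hcs := Est.cs P Q κP κQ
    have hEP' : ((((P ×ˢ P).filter fun t => κP t.1 = κP t.2).card : ℕ) : ℝ) ≤ A * (sp / dp) := by
      rw [← mul_div_assoc, le_div_iff₀ hdpR]
      exact hEP
    have hEQ' : ((((Q ×ˢ Q).filter fun t => κQ t.1 = κQ t.2).card : ℕ) : ℝ) ≤ A * (sq' / dq) := by
      rw [← mul_div_assoc, le_div_iff₀ hdqR]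
      exact hEQ
    have hT'sq : (T1.card : ℝ) ^ 2 ≤ (A * V) ^ 2 := by
      have h1 : (T1.card : ℝ) ^ 2 ≤ (((P ×ˢ Q).filter fun t => κP t.1 = κQ t.2).card : ℝ) ^ 2 := by
        apply pow_le_pow_left₀ (Nat.cast_nonneg _)
        exact_mod_cast hcard
      have h2 : (A * (sp / dp)) * (A * (sq' / dq)) = (A * V) ^ 2 := by
        have h3 : V ^ 2 = (sp / dp) * (sq' / dq) := by
          rw [hV, ← Real.rpow_natCast, ← Real.rpow_mul (by positivity)]
          norm_num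
        rw [mul_pow, h3]; ring
      calc _ ≤ _ := h1
        _ ≤ _ := hcs
        _ ≤ (A * (sp / dp)) * (A * (sq' / dq)) :=
            mul_le_mul hEP' hEQ' (Nat.cast_nonneg _) (by positivity)
        _ = _ := h2
    exact le_of_sq_le_sq hT'sq (mul_nonneg hA0 hV0)
  -- summation over the patterns
  set I := T.image fun t => pat K dp (num t p) with hI
  set I' := T.image fun t => pat K dq (num t q) with hI'
  have hIb := hbd p dp hdp (fun t ht => (hTd t ht).1)
  have hIb' := hbd q dq hdq (fun t ht => (hTd t ht).2)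
  rw [← hI] at hIb
  rw [← hI'] at hIb'
  have hsum : T.card = ∑ z ∈ I ×ˢ I',
      (T.filter fun t => (pat K dp (num t p), pat K dq (num t q)) = z).card := by
    apply card_eq_sum_card_fiberwise
    intro t ht
    rw [mem_coe] at ht
    rw [mem_coe, mem_product]
    exact ⟨mem_image_of_mem _ ht, mem_image_of_mem _ ht⟩
  have hfin : (T.card : ℝ) ≤ ((I.card : ℝ) * I'.card) * (A * V) := by
    rw [hsum]
    push_cast
    calc _ ≤ ∑ _z ∈ I ×ˢ I', A * V := by
          apply sum_le_sum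
          intro z _
          refine le_trans ?_ (hone z.1 z.2)
          have : (T.filter fun t => (pat K dp (num t p), pat K dq (num t q)) = z) =
              T.filter fun t => pat K dp (num t p) = z.1 ∧ pat K dq (num t q) = z.2 := by
            apply filter_congr
            intro t _
            rw [Prod.ext_iff]
          rw [this]
      _ = _ := by rw [sum_const, card_product, nsmul_eq_mul]; push_cast; ring
  have hc5 : (s.2.2 : ℝ) ^ e * (s.2.2 : ℝ) ^ e * (s.2.2 : ℝ) ^ (3 * e) = (s.2.2 : ℝ) ^ ε := by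
    rw [← Real.rpow_add hs0, ← Real.rpow_add hs0]
    congr 1
    rw [he]
    ring
  calc (T.card : ℝ) ≤ ((I.card : ℝ) * I'.card) * (A * V) := hfin
    _ ≤ ((DF * (k ^ e * (s.2.2 : ℝ) ^ e)) * (DF * (k ^ e * (s.2.2 : ℝ) ^ e))) * (A * V) := by
        apply mul_le_mul_of_nonneg_right _ (by positivity)
        exact mul_le_mul hIb hIb' (Nat.cast_nonneg _) (by positivity)
    _ = (DF * k ^ e) ^ 2 * M *
        ((s.2.2 : ℝ) ^ e * (s.2.2 : ℝ) ^ e * (s.2.2 : ℝ) ^ (3 * e)) * V := by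
        rw [hA]
        ring
    _ = _ := by rw [hc5]

end Pool.Agent.X75A
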