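import Mathlib
import Pool.Agent.X75A.EstG
import Pool.Agent.N745.T1.Pat1
import Pool.Agent.N745.T1.Pat3

/-!
# Cells with a dusty member, the members are divisible by given primes
-/

set_option autoImplicit false

namespace Pool.Agent.X75A

open Finset Pool.Agent.H785R2.ABC Pool.Agent.H785R2.ABC.EC Pool.Agent.H705R2.ABC
  Pool.Agent.Y913 Pool.Agent.Y913.Nb Pool.Agent.N745.T1

/-- **one dusty member** `r`: Cauchy-Schwarz for the other two -/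
theorem div_est (hF : Basics) (hG4 : StmtG4) (hJ : StmtJ) (t0 M' K : ℕ) (γ e : ℝ) (hγ : 0 < γ)
    (he : 0 < e) (ht0 : 3 ≤ γ * t0) (htM : t0 ≤ M') (hK : 1 ≤ e * ((K : ℝ) + 1)) :
    ∃ D : ℝ, 0 < D ∧ ∀ T0 : Finset (ℕ × ℕ × ℕ), Cell K T0 → ∀ s ∈ T0, ∀ d : Fin 3 → ℕ,
      (∀ i, 1 ≤ d i) → (∀ t ∈ T0, ∀ i, d i ∣ rd K (num t i) univ) → ∀ Y : ℝ, 1 ≤ Y →
      (∀ j, (rd K (num s j) univ : ℝ) ≤ Y) → ∀ p q r : Fin 3, p ≠ q → q ≠ r → p ≠ r →
      ∀ T : Finset (ℕ × ℕ × ℕ), T ⊆ T0 → (∀ t ∈ T, Dusty Y γ M' (num t r)) →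
      (T.card : ℝ) ≤ D * (s.2.2 : ℝ) ^ (2 * e) * Y ^ γ *
        (((rd K (num s p) univ : ℝ) / d p) * ((rd K (num s q) univ : ℝ) / d q)) ^
          ((1 : ℝ) / 2) := by
  classical
  obtain ⟨D, hD, hd⟩ := estG hF hG4 hJ K e he
  refine ⟨D, hD, ?_⟩
  intro T0 hT s hs d hd1 hdv Y hY hrY p q r hpq hqr hpr T hTT hdus
  have hY0 : (0 : ℝ) < Y := by linarith
  have hc1 : 1 ≤ s.2.2 := (hT.abc s hs).2.2.1
  have hcR : (1 : ℝ) ≤ s.2.2 := by exact_mod_cast hc1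
  have hcR0 : (0 : ℝ) < s.2.2 := by linarith
  have hdp : (0 : ℝ) < d p := by exact_mod_cast hd1 p
  have hdq : (0 : ℝ) < d q := by exact_mod_cast hd1 q
  set up : ℝ := (rd K (num s p) univ : ℝ) with hup
  set uq : ℝ := (rd K (num s q) univ : ℝ) with huq
  have hup0 : 0 ≤ up := by rw [hup]; positivity
  have huq0 : 0 ≤ uq := by rw [huq]; positivity
  set V : ℝ := ((up / d p) * (uq / d q)) ^ ((1 : ℝ) / 2) with hV
  have hV0 : 0 ≤ V := by rw [hV]; positivity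
  set B : ℝ := D * (s.2.2 : ℝ) ^ (2 * e) * V with hB
  have hB0 : 0 ≤ B := by rw [hB]; positivity
  have hfib := dust_fiber (B := B) hY hγ.le hdus hB0 (by
    intro ρ hρ1 hρ2
    have h1 : Y ^ ((3 : ℝ) / 2) ≤ ((ρ ^ t0 : ℕ) : ℝ) := by
      calc Y ^ ((3 : ℝ) / 2) ≤ Y ^ (γ / 2 * t0) :=
            Real.rpow_le_rpow_of_exponent_le hY (by linarith)
        _ = (Y ^ (γ / 2)) ^ t0 := by rw [Real.rpow_mul hY0.le, Real.rpow_natCast]
        _ ≤ (ρ : ℝ) ^ t0 := pow_le_pow_left₀ (by positivity) hρ1.le t0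
        _ = _ := by push_cast; rfl
    have h2 : ∀ j, (rd K (num s j) univ : ℝ) ^ ((3 : ℝ) / 2) ≤ ((ρ ^ t0 : ℕ) : ℝ) := fun j =>
      (Real.rpow_le_rpow (by positivity) (hrY j) (by norm_num)).trans h1
    have h3 := hd T0 hT s hs p q r hpq hqr hpr (ρ ^ t0) (h2 p) (h2 q) (d p) (d q) (hd1 p) (hd1 q)
      (T.filter fun t => ρ ^ M' ∣ num t r) ((filter_subset _ _).trans hTT) (fun t ht =>
        (pow_dvd_pow ρ htM).trans (mem_filter.1 ht).2) (fun t ht =>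
        ⟨hdv t (hTT (mem_filter.1 ht).1) p, hdv t (hTT (mem_filter.1 ht).1) q⟩)
    refine h3.trans ?_
    rw [hB]
    have hlp := rd_last_le hF (hT.abc s hs) hK p
    have hlq := rd_last_le hF (hT.abc s hs) hK q
    rw [← hup, ← huq]
    have h4 : (up * (rd K (num s p) {Fin.last K} : ℝ) / d p) *
        (uq * (rd K (num s q) {Fin.last K} : ℝ) / d q) ≤
        ((up / d p) * (uq / d q)) * ((s.2.2 : ℝ) ^ e) ^ 2 := by
      calc (up * (rd K (num s p) {Fin.last K} : ℝ) / d p) *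
            (uq * (rd K (num s q) {Fin.last K} : ℝ) / d q)
          = ((up / d p) * (uq / d q)) * ((rd K (num s p) {Fin.last K} : ℝ) *
            (rd K (num s q) {Fin.last K} : ℝ)) := by ring
        _ ≤ ((up / d p) * (uq / d q)) * ((s.2.2 : ℝ) ^ e * (s.2.2 : ℝ) ^ e) := by gcongr
        _ = _ := by ring
    have h5 : ((up * (rd K (num s p) {Fin.last K} : ℝ) / d p) *
        (uq * (rd K (num s q) {Fin.last K} : ℝ) / d q)) ^ ((1 : ℝ) / 2) ≤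
        V * (s.2.2 : ℝ) ^ e := by
      refine (Real.rpow_le_rpow (by positivity) h4 (by norm_num)).trans (le_of_eq ?_)
      rw [Real.mul_rpow (by positivity) (by positivity), hV]
      congr 1
      rw [← Real.rpow_natCast, ← Real.rpow_mul (by positivity)]
      norm_num
    calc D * (s.2.2 : ℝ) ^ e * ((up * (rd K (num s p) {Fin.last K} : ℝ) / d p) *
          (uq * (rd K (num s q) {Fin.last K} : ℝ) / d q)) ^ ((1 : ℝ) / 2)
        ≤ D * (s.2.2 : ℝ) ^ e * (V * (s.2.2 : ℝ) ^ e) := by gcongr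
      _ = D * ((s.2.2 : ℝ) ^ e * (s.2.2 : ℝ) ^ e) * V := by ring
      _ = D * (s.2.2 : ℝ) ^ (2 * e) * V := by
          rw [← Real.rpow_add hcR0]
          congr 3
          ring)
  calc (T.card : ℝ) ≤ Y ^ γ * B := hfib
    _ = _ := by rw [hB]; ring

/-- **one solid member**: the member `r` is dusty, `p` is solid; `q` is divisible by given primes -/
theorem div_one (hF : Basics) (hG4 : StmtG4) (n w M M' K : ℕ) (γ lam e : ℝ) (hγ : 0 < γ)
    (hlam : 0 < lam) (he : 0 < e) (hM' : 1 ≤ M') (hKK : 2 * KK n (n * w) ≤ M')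
    (hw : 2 * (M : ℝ) ≤ γ * w) :
    ∃ D : ℝ, 0 < D ∧ ∀ T0 : Finset (ℕ × ℕ × ℕ), Cell K T0 → ∀ s ∈ T0, ∀ d : Fin 3 → ℕ,
      (∀ i, 1 ≤ d i) → (∀ t ∈ T0, ∀ i, d i ∣ rd K (num t i) univ) → ∀ Y : ℝ, 1 ≤ Y →
      (s.2.2 : ℝ) ^ lam ≤ Y → ∀ p q r : Fin 3, p ≠ q → q ≠ r → p ≠ r →
      ∀ T : Finset (ℕ × ℕ × ℕ), T ⊆ T0 → (∀ t ∈ T, Dusty Y γ M' (num t r)) →
      (∀ t ∈ T, NB n (Y ^ (2 * M)) (num t p)) →
      (T.card : ℝ) ≤ D * (s.2.2 : ℝ) ^ e * Y ^ (γ + 2 * γ * (n : ℝ) ^ 2) *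
        ((rd K (num s q) univ : ℝ) / d q) := by
  classical
  obtain ⟨C0, hC0⟩ := count_one n w
  obtain ⟨D4, hD4, h4⟩ := hG4 (e / 2) (half_pos he)
  obtain ⟨Dp, hDp, hp⟩ := polylog_le (K + 1) n (half_pos he)
  obtain ⟨c0, hc0⟩ := log_small C0 n (K + 1) (δ := lam * γ) (mul_pos hlam hγ)
  obtain ⟨Ds, hDs, hsm⟩ := card_small hF K c0
  set k : ℝ := (2 : ℝ) ^ (K + 1) with hk
  have hk1 : 1 ≤ k := one_le_pow₀ (by norm_num)
  refine ⟨Ds + D4 * k ^ (e / 2) * k * (Dp * (C0 : ℝ) ^ n), by positivity, ?_⟩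
  intro T0 hT s hs d hd1 hdv Y hY hcY p q r hpq hqr hpr T hTT hdus hnb
  have hY0 : (0 : ℝ) < Y := by linarith
  have hc1 : 1 ≤ s.2.2 := (hT.abc s hs).2.2.1
  have hcR : (1 : ℝ) ≤ s.2.2 := by exact_mod_cast hc1
  have hcR0 : (0 : ℝ) < s.2.2 := by linarith
  have hce : (1 : ℝ) ≤ (s.2.2 : ℝ) ^ e := Real.one_le_rpow hcR he.le
  have hYe : (1 : ℝ) ≤ Y ^ (γ + 2 * γ * (n : ℝ) ^ 2) := Real.one_le_rpow hY (by positivity)
  have hdq : (0 : ℝ) < d q := by exact_mod_cast hd1 q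
  have hrd1 : (1 : ℝ) ≤ (rd K (num s q) univ : ℝ) / d q := by
    rw [le_div_iff₀ hdq, one_mul]
    exact_mod_cast Nat.le_of_dvd (hF.rd_pos _ _ _) (hdv s hs q)
  rcases le_or_gt s.2.2 c0 with hsc | hsc
  · -- bounded `c`
    have h1 : (T.card : ℝ) ≤ Ds :=
      (by exact_mod_cast card_le_card hTT : (T.card : ℝ) ≤ T0.card).trans (hsm T0 hT s hs hsc)
    have h2 : Ds ≤ Ds + D4 * k ^ (e / 2) * k * (Dp * (C0 : ℝ) ^ n) :=
      le_add_of_nonneg_right (by positivity)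
    have h3 : (1 : ℝ) ≤ (s.2.2 : ℝ) ^ e * Y ^ (γ + 2 * γ * (n : ℝ) ^ 2) *
        ((rd K (num s q) univ : ℝ) / d q) := one_le_mul_of_one_le_of_one_le
          (one_le_mul_of_one_le_of_one_le hce hYe) hrd1
    calc (T.card : ℝ) ≤ Ds + D4 * k ^ (e / 2) * k * (Dp * (C0 : ℝ) ^ n) := h1.trans h2
      _ = (Ds + D4 * k ^ (e / 2) * k * (Dp * (C0 : ℝ) ^ n)) * 1 := (mul_one _).symm
      _ ≤ (Ds + D4 * k ^ (e / 2) * k * (Dp * (C0 : ℝ) ^ n)) * ((s.2.2 : ℝ) ^ e *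
          Y ^ (γ + 2 * γ * (n : ℝ) ^ 2) * ((rd K (num s q) univ : ℝ) / d q)) :=
          mul_le_mul_of_nonneg_left h3 (by positivity)
      _ = _ := by ring
  -- large `c`
  obtain ⟨E, hE⟩ : ∃ E, E = K + 1 + Nat.log 2 s.2.2 := ⟨_, rfl⟩
  set B2 : ℝ := Dp * (s.2.2 : ℝ) ^ (e / 2) * (C0 : ℝ) ^ n * Y ^ (2 * γ * (n : ℝ) ^ 2) with hB2
  have hB20 : 0 ≤ B2 := by rw [hB2]; positivity
  set N : ℝ := D4 * ((2 ^ (K + 1) * s.2.2 : ℕ) : ℝ) ^ (e / 2) * (k * (rd K (num s q) univ : ℝ)) /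
    d q with hN
  have hN0 : 0 ≤ N := by rw [hN]; positivity
  have hfib := dust_fiber (B := N * B2) hY hγ.le hdus (mul_nonneg hN0 hB20) (by
    intro ρ hρ1 hρ2
    obtain ⟨g1, g2, g3⟩ := rho_bounds (M := M) (w := w) hY hγ hw hρ1
    set Tρ := T.filter fun t => ρ ^ M' ∣ num t r with hTρ
    have hTm : ∀ t ∈ Tρ, t ∈ T ∧ ρ ^ M' ∣ num t r := fun t ht => by
      rw [hTρ, mem_filter] at ht
      exact ht
    set Nq := Tρ.image fun t => num t q with hNq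
    have hNqcard : (Nq.card : ℝ) ≤ N := by
      have h1 : Nq ⊆ (Icc 1 (2 ^ (K + 1) * s.2.2)).filter
          fun x => (rad x : ℝ) ≤ k * (rd K (num s q) univ : ℝ) ∧ d q ∣ rad x := by
        intro m hm
        obtain ⟨t, ht, rfl⟩ := mem_image.1 hm
        have htT := hTT (hTm t ht).1
        rw [mem_filter, mem_Icc]
        refine ⟨⟨num_pos (hT.abc t htT) q, num_le_X hF hT htT hs q⟩, ?_, ?_⟩
        · rw [← hF.rd_univ K, hk]
          exact_mod_cast hT.rd_le t htT s hs q univ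
        · rw [← hF.rd_univ K]
          exact hdv t htT q
      exact (by exact_mod_cast card_le_card h1 : (Nq.card : ℝ) ≤ _).trans
        (h4 _ (Nat.mul_pos (by positivity) hc1) _ (by positivity) (d q) (hd1 q))
    have hinner : ∀ m ∈ Nq, ((Tρ.filter fun t => num t q = m).card : ℝ) ≤ B2 := by
      intro m _
      set Tm := Tρ.filter fun t => num t q = m with hTm'
      have hTmm : ∀ t ∈ Tm, t ∈ Tρ ∧ num t q = m := fun t ht => by
        rw [hTm', mem_filter] at ht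
        exact ht
      have hcard : (Tm.image fun t => num t p).card = Tm.card := by
        apply card_image_of_injOn
        intro t ht t' ht' htt
        obtain ⟨a1, a2⟩ := hTmm t ht
        obtain ⟨b1, b2⟩ := hTmm t' ht'
        exact num_inj (hT.abc t (hTT (hTm t a1).1)) (hT.abc t' (hTT (hTm t' b1).1)) hpq htt
          (a2.trans b2.symm)
      have h5 := hC0 ρ M' E (Y ^ (2 * M)) (Tm.image fun t => num t p)
        (((sg r : ℤ) : ZMod (ρ ^ M')) * (m : ZMod (ρ ^ M'))) g1 (one_le_pow₀ hY) g2 (by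
          have h6 : ((C0 * (n * E) : ℕ) : ℝ) ≤ ((ρ ^ 2 : ℕ) : ℝ) := by
            calc ((C0 * (n * E) : ℕ) : ℝ) ≤ (s.2.2 : ℝ) ^ (lam * γ) := by
                  rw [hE]; exact hc0 s.2.2 hsc.le hc1
              _ = ((s.2.2 : ℝ) ^ lam) ^ γ := by rw [Real.rpow_mul hcR0.le]
              _ ≤ Y ^ γ := Real.rpow_le_rpow (by positivity) hcY hγ.le
              _ ≤ _ := g3
          exact_mod_cast h6) hKK (by
          intro x hx
          obtain ⟨t, ht, rfl⟩ := mem_image.1 hx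
          obtain ⟨a1, a2⟩ := hTmm t ht
          obtain ⟨b1, b2⟩ := hTm t a1
          have htT := hTT b1
          refine ⟨num_pos (hT.abc t htT) p, hnb t b1, ?_, ?_, ?_⟩
          · exact Nat.Coprime.coprime_dvd_right ((dvd_pow_self ρ (by omega)).trans b2)
              (num_coprime (hT.abc t htT) hpr)
          · rw [← a2]
            exact num_zmod (hT.abc t htT) hpq hqr hpr b2
          · rw [hE]
            exact log_num_le hF hT hs htT p)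
      rw [hcard] at h5
      have h6 := rho_pow_le hY hρ2 C0 E n
      have h7 := hp s.2.2 hc1
      rw [← hE] at h7
      calc (Tm.card : ℝ) ≤ (((2 * E + 1) ^ n * (C0 * (ρ ^ 2) ^ n) ^ n : ℕ) : ℝ) := by
            exact_mod_cast h5
        _ ≤ (((2 * E + 1) ^ n : ℕ) : ℝ) * (C0 : ℝ) ^ n * Y ^ (2 * γ * (n : ℝ) ^ 2) := h6
        _ ≤ (Dp * (s.2.2 : ℝ) ^ (e / 2)) * (C0 : ℝ) ^ n * Y ^ (2 * γ * (n : ℝ) ^ 2) := by
            gcongr
        _ = B2 := by rw [hB2]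
    have hsum : Tρ.card = ∑ m ∈ Nq, (Tρ.filter fun t => num t q = m).card :=
      card_eq_sum_card_image _ Tρ
    calc (Tρ.card : ℝ) = ∑ m ∈ Nq, ((Tρ.filter fun t => num t q = m).card : ℝ) := by
          rw [hsum]; push_cast; rfl
      _ ≤ ∑ _m ∈ Nq, B2 := sum_le_sum hinner
      _ = (Nq.card : ℝ) * B2 := by rw [sum_const, nsmul_eq_mul]
      _ ≤ N * B2 := mul_le_mul_of_nonneg_right hNqcard hB20)
  have hNe : N = D4 * (k ^ (e / 2) * (s.2.2 : ℝ) ^ (e / 2)) *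
      (k * ((rd K (num s q) univ : ℝ) / d q)) := by
    rw [hN]
    push_cast
    rw [Real.mul_rpow (by positivity) hcR0.le]
    ring
  have hYmul : Y ^ γ * Y ^ (2 * γ * (n : ℝ) ^ 2) = Y ^ (γ + 2 * γ * (n : ℝ) ^ 2) :=
    (Real.rpow_add hY0 _ _).symm
  have hcmul : (s.2.2 : ℝ) ^ (e / 2) * (s.2.2 : ℝ) ^ (e / 2) = (s.2.2 : ℝ) ^ e := by
    rw [← Real.rpow_add hcR0]
    congr 1
    ring
  calc (T.card : ℝ) ≤ Y ^ γ * (N * B2) := hfib
    _ = (D4 * k ^ (e / 2) * k * (Dp * (C0 : ℝ) ^ n)) *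
        ((s.2.2 : ℝ) ^ (e / 2) * (s.2.2 : ℝ) ^ (e / 2)) *
        (Y ^ γ * Y ^ (2 * γ * (n : ℝ) ^ 2)) * ((rd K (num s q) univ : ℝ) / d q) := by
        rw [hNe, hB2]; ring
    _ = (D4 * k ^ (e / 2) * k * (Dp * (C0 : ℝ) ^ n)) * (s.2.2 : ℝ) ^ e *
        Y ^ (γ + 2 * γ * (n : ℝ) ^ 2) * ((rd K (num s q) univ : ℝ) / d q) := by rw [hYmul, hcmul]
    _ ≤ _ := by
        apply mul_le_mul_of_nonneg_right _ (by positivity)
        apply mul_le_mul_of_nonneg_right _ (by positivity)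
        apply mul_le_mul_of_nonneg_right _ (by positivity)
        exact le_add_of_nonneg_left hDs.le

end Pool.Agent.X75A
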