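import Mathlib
import Pool.Agent.X75A.DivPat
import Pool.Agent.X75A.Count

/-!
# One pattern, the members are divisible by given primes; the cells
-/

set_option autoImplicit false

namespace Pool.Agent.X75A

open Finset Pool.Agent.H785R2.ABC Pool.Agent.H785R2.ABC.EC Pool.Agent.Y913
  Pool.Agent.Y913.Nb Pool.Agent.H705R2.ABC Pool.Agent.N745.T1

/-- **one pattern** -/
theorem div_pattern (hF : Basics) (hG4 : StmtG4) (hJ : StmtJ) (η : ℝ) (hη : 0 < η) (M : ℕ)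
    (hM : 1 ≤ M) (γ : ℝ) (hγ : 0 < γ) (hγ1 : γ ≤ 1) (M' : ℕ) (γ' : ℝ) (w t0 : ℕ)
    (hs : Step η M γ M' γ' w t0) : ∃ L : ℝ, 0 < L ∧ ∀ (K : ℕ) (lam e : ℝ), 0 < lam → 0 < e →
      1 ≤ e * ((K : ℝ) + 1) → ∃ D : ℝ, 0 < D ∧ ∀ T0 : Finset (ℕ × ℕ × ℕ), Cell K T0 →
      ∀ s ∈ T0, ∀ d : Fin 3 → ℕ, (∀ i, 1 ≤ d i) → (∀ t ∈ T0, ∀ i, d i ∣ rd K (num t i) univ) →
      ∀ Y : ℝ, 1 ≤ Y → (s.2.2 : ℝ) ^ lam ≤ Y →
      (∀ t ∈ T0, (rad (t.1 * t.2.1 * t.2.2) : ℝ) ≤ Y) → (∀ t ∈ T0, Y ^ L ≤ (t.2.2 : ℝ)) →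
      ∀ T : Finset (ℕ × ℕ × ℕ), T ⊆ T0 → ∀ S : Finset (Fin 3),
      (∀ t ∈ T, (∀ i ∈ S, Dusty Y γ' M' (num t i)) ∧ (∀ i ∉ S, ¬ Dusty Y γ M (num t i))) →
      ∀ p q : Fin 3, p ≠ q →
      (T.card : ℝ) ≤ D * ((s.2.2 : ℝ) ^ (2 * e) * Y ^ η *
        (((rd K (num s p) univ : ℝ) / d p) * ((rd K (num s q) univ : ℝ) / d q)) ^
          ((1 : ℝ) / 2)) := by
  classical
  obtain ⟨L, D4, hL, hD4, h4⟩ := pat_sss (nb γ) M hM η hη
  refine ⟨L, hL, ?_⟩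
  intro K lam e hlam he hK
  obtain ⟨D1, hD1, h1⟩ := div_one hF hG4 (nb γ) w M M' K γ' lam e hs.hγ' hlam he hs.hM' hs.hKK1
    hs.hw
  obtain ⟨D2, hD2, h2⟩ := pat_two hF (nb γ) w M M' K γ' lam e hs.hγ' hlam he hs.hM' hs.hKK2 hs.hw
  obtain ⟨D3, hD3, h3⟩ := div_est hF hG4 hJ t0 M' K γ' e hs.hγ' he hs.ht0 hs.htM hK
  refine ⟨D1 + D2 + D3 + D4, by positivity, ?_⟩
  intro T0 hT s hsT d hd1 hdv Y hY hcY hradY hYL T hTT S hpat
  have hY0 : (0 : ℝ) < Y := by linarith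
  have hc1 : 1 ≤ s.2.2 := (hT.abc s hsT).2.2.1
  have hcR : (1 : ℝ) ≤ s.2.2 := by exact_mod_cast hc1
  have hcR0 : (0 : ℝ) < s.2.2 := by linarith
  have hce : (1 : ℝ) ≤ (s.2.2 : ℝ) ^ (2 * e) := Real.one_le_rpow hcR (by positivity)
  have hce' : (s.2.2 : ℝ) ^ e ≤ (s.2.2 : ℝ) ^ (2 * e) :=
    Real.rpow_le_rpow_of_exponent_le hcR (by linarith)
  have hradj : ∀ t ∈ T0, ∀ j, (rad (num t j) : ℝ) ≤ Y := by
    intro t ht j
    refine le_trans ?_ (hradY t ht)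
    exact_mod_cast rad_num_le (hT.abc t ht) j
  obtain ⟨u, hu⟩ : ∃ u : Fin 3 → ℝ, u = fun j => (rd K (num s j) univ : ℝ) / d j := ⟨_, rfl⟩
  have huj : ∀ j, (rd K (num s j) univ : ℝ) / d j = u j := fun j => by rw [hu]
  have hu1 : ∀ j, 1 ≤ u j := fun j => by
    have hdj : (0 : ℝ) < d j := by exact_mod_cast hd1 j
    rw [← huj, le_div_iff₀ hdj, one_mul]
    exact_mod_cast Nat.le_of_dvd (hF.rd_pos _ _ _) (hdv s hsT j)
  have hu0 : ∀ j, 0 < u j := fun j => lt_of_lt_of_le one_pos (hu1 j)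
  have huY : ∀ j, (rd K (num s j) univ : ℝ) ≤ Y := fun j => by
    rw [hF.rd_univ]
    exact hradj s hsT j
  -- solid members
  have hsolid : ∀ t ∈ T, ∀ i ∉ S, NB (nb γ) (Y ^ (2 * M)) (num t i) := by
    intro t ht i hi
    have hm := num_pos (hT.abc t (hTT ht)) i
    exact nb_of_not_dusty hY hγ hγ1 hM (Nat.le_ceil _) hm (hradj t (hTT ht) i)
      ((hpat t ht).2 i hi)
  have hsm1 : γ' + 2 * γ' * ((nb γ : ℕ) : ℝ) ^ 2 ≤ η := by
    refine le_trans ?_ hs.small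
    have h6 : ((nb γ : ℕ) : ℝ) ^ 2 ≤ ((2 * nb γ : ℕ) : ℝ) ^ 2 := by
      apply pow_le_pow_left₀ (Nat.cast_nonneg _)
      exact_mod_cast (by omega : nb γ ≤ 2 * nb γ)
    have h7 := mul_le_mul_of_nonneg_left h6 (by linarith [hs.hγ'] : (0 : ℝ) ≤ 2 * γ')
    linarith
  have hsm0 : γ' ≤ η := by
    refine le_trans ?_ hsm1
    have := hs.hγ'
    have h6 : (0 : ℝ) ≤ 2 * γ' * ((nb γ : ℕ) : ℝ) ^ 2 := by positivity
    linarith
  obtain ⟨G, hG⟩ : ∃ G : ℝ, G = (s.2.2 : ℝ) ^ (2 * e) * Y ^ η := ⟨_, rfl⟩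
  have hG0 : 0 ≤ G := by rw [hG]; positivity
  -- the claims
  have claimA : ∀ p q r : Fin 3, p ≠ q → q ≠ r → p ≠ r → r ∈ S →
      (T.card : ℝ) ≤ D3 * (G * (u p * u q) ^ ((1 : ℝ) / 2)) := by
    intro p q r hpq hqr hpr hr
    have h5 := h3 T0 hT s hsT d hd1 hdv Y hY huY p q r hpq hqr hpr T hTT
      (fun t ht => (hpat t ht).1 r hr)
    rw [huj, huj] at h5
    refine h5.trans ?_
    have h9 : Y ^ γ' ≤ Y ^ η := Real.rpow_le_rpow_of_exponent_le hY hsm0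
    have h10 : (0 : ℝ) ≤ (u p * u q) ^ ((1 : ℝ) / 2) := by
      have := hu0 p; have := hu0 q
      positivity
    calc D3 * (s.2.2 : ℝ) ^ (2 * e) * Y ^ γ' * (u p * u q) ^ ((1 : ℝ) / 2)
        ≤ D3 * (s.2.2 : ℝ) ^ (2 * e) * Y ^ η * (u p * u q) ^ ((1 : ℝ) / 2) := by gcongr
      _ = _ := by rw [hG]; ring
  have claimB : ∀ p q r : Fin 3, p ≠ q → q ≠ r → p ≠ r → r ∈ S → p ∉ S →
      (T.card : ℝ) ≤ D1 * (G * u q) := by
    intro p q r hpq hqr hpr hr hp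
    have h5 := h1 T0 hT s hsT d hd1 hdv Y hY hcY p q r hpq hqr hpr T hTT
      (fun t ht => (hpat t ht).1 r hr) (fun t ht => hsolid t ht p hp)
    rw [huj] at h5
    refine h5.trans ?_
    have h9 : Y ^ (γ' + 2 * γ' * ((nb γ : ℕ) : ℝ) ^ 2) ≤ Y ^ η :=
      Real.rpow_le_rpow_of_exponent_le hY hsm1
    calc D1 * (s.2.2 : ℝ) ^ e * Y ^ (γ' + 2 * γ' * ((nb γ : ℕ) : ℝ) ^ 2) * u q
        ≤ D1 * (s.2.2 : ℝ) ^ (2 * e) * Y ^ η * u q := by
          have := hu0 q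
          gcongr
      _ = _ := by rw [hG]; ring
  have claimC : ∀ p q r : Fin 3, p ≠ q → q ≠ r → p ≠ r → r ∈ S → p ∉ S → q ∉ S →
      (T.card : ℝ) ≤ D2 * G := by
    intro p q r hpq hqr hpr hr hp hq
    have h5 := h2 T0 hT s hsT Y hY hcY p q r hpq hqr hpr T hTT
      (fun t ht => (hpat t ht).1 r hr) (fun t ht => hsolid t ht p hp)
      (fun t ht => hsolid t ht q hq)
    refine h5.trans ?_
    have h9 : Y ^ (γ' + 2 * γ' * ((2 * nb γ : ℕ) : ℝ) ^ 2) ≤ Y ^ η :=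
      Real.rpow_le_rpow_of_exponent_le hY hs.small
    calc D2 * (s.2.2 : ℝ) ^ e * Y ^ (γ' + 2 * γ' * ((2 * nb γ : ℕ) : ℝ) ^ 2)
        ≤ D2 * (s.2.2 : ℝ) ^ (2 * e) * Y ^ η := by gcongr
      _ = D2 * G := by rw [hG]; ring
  have claimD : S = ∅ → (T.card : ℝ) ≤ D4 * G := by
    intro hS
    have h5 := h4 T Y hY (fun t ht => hT.abc t (hTT ht))
      (fun t ht j => hsolid t ht j (by rw [hS]; exact notMem_empty j))
      (fun t ht => hYL t (hTT ht))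
    refine h5.trans ?_
    apply mul_le_mul_of_nonneg_left _ hD4.le
    calc Y ^ η = 1 * Y ^ η := (one_mul _).symm
      _ ≤ G := by rw [hG]; gcongr
  intro p q hpq
  obtain ⟨r, hqr, hpr, hall⟩ := exists_third p q hpq
  rw [huj, huj]
  have hgoal : ∀ D' V : ℝ, 0 ≤ D' → D' ≤ D1 + D2 + D3 + D4 → 0 ≤ V →
      V ≤ (u p * u q) ^ ((1 : ℝ) / 2) → (T.card : ℝ) ≤ D' * (G * V) →
      (T.card : ℝ) ≤ (D1 + D2 + D3 + D4) * ((s.2.2 : ℝ) ^ (2 * e) * Y ^ η *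
        (u p * u q) ^ ((1 : ℝ) / 2)) := by
    intro D' V h0 h5 h7 h8 h6
    rw [← hG]
    refine h6.trans ?_
    exact mul_le_mul h5 (mul_le_mul_of_nonneg_left h8 hG0) (by positivity) (by positivity)
  have hone : (1 : ℝ) ≤ (u p * u q) ^ ((1 : ℝ) / 2) :=
    Real.one_le_rpow (one_le_mul_of_one_le_of_one_le (hu1 p) (hu1 q)) (by norm_num)
  by_cases mr : r ∈ S
  · exact hgoal D3 _ hD3.le (by linarith) (by linarith) le_rfl (claimA p q r hpq hqr hpr mr)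
  by_cases mp : p ∈ S
  · by_cases mq : q ∈ S
    · -- two dusty members `p`, `q`, the solid member is `r`
      have e1 := claimB r p q (Ne.symm hpr) hpq (Ne.symm hqr) mq mr
      have e2 := claimB r q p (Ne.symm hqr) (Ne.symm hpq) (Ne.symm hpr) mp mr
      have h5 : min (u p) (u q) ≤ (u p * u q) ^ ((1 : ℝ) / 2) := by
        have h6 : min (u p) (u q) = (min (u p) (u q) * min (u p) (u q)) ^ ((1 : ℝ) / 2) := by
          rw [← sq, ← Real.rpow_natCast, ← Real.rpow_mul (le_min (hu0 p).le (hu0 q).le)]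
          norm_num
        rw [h6]
        apply Real.rpow_le_rpow
        · have : 0 ≤ min (u p) (u q) := le_min (hu0 p).le (hu0 q).le
          positivity
        · exact mul_le_mul (min_le_left _ _) (min_le_right _ _)
            (le_min (hu0 p).le (hu0 q).le) (hu0 p).le
        · norm_num
      refine hgoal D1 _ hD1.le (by linarith) (le_min (hu0 p).le (hu0 q).le) h5 ?_
      rcases min_choice (u p) (u q) with h | h <;> rw [h]
      · exact e1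
      · exact e2
    · refine hgoal D2 1 hD2.le (by linarith) zero_le_one hone ?_
      rw [mul_one]
      exact claimC r q p (Ne.symm hqr) (Ne.symm hpq) (Ne.symm hpr) mp mr mq
  · by_cases mq : q ∈ S
    · refine hgoal D2 1 hD2.le (by linarith) zero_le_one hone ?_
      rw [mul_one]
      exact claimC r p q (Ne.symm hpr) hpq (Ne.symm hqr) mq mr mp
    · refine hgoal D4 1 hD4.le (by linarith) zero_le_one hone ?_
      rw [mul_one]
      apply claimD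
      ext i
      rcases hall i with rfl | rfl | rfl <;> simp [mp, mq, mr]

/-- the property of the theorem on given divisors of the members -/
def RDiv (K : ℕ) (T0 : Finset (ℕ × ℕ × ℕ)) (s : ℕ × ℕ × ℕ) (W : ℝ) : Prop :=
  ∃ d : Fin 3 → ℕ, (∀ i, 1 ≤ d i) ∧ (∀ t ∈ T0, ∀ i, d i ∣ rd K (num t i) univ) ∧
    ∃ p q : Fin 3, p ≠ q ∧ W = (((rd K (num s p) univ : ℝ) / d p) *
      ((rd K (num s q) univ : ℝ) / d q)) ^ ((1 : ℝ) / 2)

theorem stmtG4 : StmtG4 := stmtG4_of (stmtA3_of stmtA2)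

theorem cellBound_div (η : ℝ) (hη : 0 < η) : CellBound η RDiv := by
  apply cells_of_patterns η hη
  intro M hM γ hγ hγ1 M' γ' w t0 hs
  obtain ⟨L, hL, h⟩ := div_pattern basics stmtG4 stmtJ' η hη M hM γ hγ hγ1 M' γ' w t0 hs
  refine ⟨L, hL, ?_⟩
  intro K lam e hlam he hK
  obtain ⟨D, hD, h⟩ := h K lam e hlam he hK
  refine ⟨D, hD, ?_⟩
  rintro T0 hT s hsT W hW ⟨d, hd1, hdv, p, q, hpq, rfl⟩ Y hY hcY hrad hYL T hTT S hpat
  exact h T0 hT s hsT d hd1 hdv Y hY hcY hrad hYL T hTT S hpat p q hpq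

end Pool.Agent.X75A
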