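import Mathlib
import Pool.Agent.X75A.DivComb

/-!
# Exceptions divisible by given primes: the count
-/

set_option autoImplicit false

namespace Pool.Agent.X75A

open Finset Pool.Agent.H785R2.ABC Pool.Agent.H785R2.ABC.Fin1 Pool.Agent.N745.T1
  Pool.Agent.H705R2.ABC

/-- the members have given divisors, and two of the cofactors have a product at most `Z` -/
def DivSmall (d : Fin 3 → ℕ) (Z : ℝ) (t : ℕ × ℕ × ℕ) : Prop :=
  (∀ i, d i ∣ rad (num t i)) ∧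
    ∃ p q : Fin 3, p ≠ q ∧ ((rad (num t p) : ℝ) / d p) * ((rad (num t q) : ℝ) / d q) ≤ Z

lemma divSmall_sw {d : Fin 3 → ℕ} {Z : ℝ} {t : ℕ × ℕ × ℕ} (h : DivSmall d Z t) :
    DivSmall (fun i => d (sp i)) Z (sw t) := by
  obtain ⟨h1, p, q, hpq, h2⟩ := h
  have hsp : ∀ i, sp (sp i) = i := by decide
  refine ⟨?_, sp p, sp q, sp_ne hpq, ?_⟩
  · intro i
    have := h1 (sp i)
    rw [← num_sw t (sp i), hsp] at this
    exact this
  · rw [num_sw, num_sw]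
    simp only [hsp]
    exact h2

theorem count_div_small (ε : ℝ) (hε : 0 < ε) : ∃ M : ℕ, 1 ≤ M ∧ ∀ k : ℕ, ∃ C : ℝ, 0 < C ∧
    ∀ X : ℕ, 1 ≤ X → ∀ Z : ℝ, 1 ≤ Z → ∀ d : Fin 3 → ℕ, (∀ i, 1 ≤ d i) →
    ∀ T : Finset (ℕ × ℕ × ℕ), (∀ t ∈ T, Exc M k X t ∧ DivSmall d Z t) →
    (T.card : ℝ) ≤ C * (X : ℝ) ^ ε * Real.sqrt Z := by
  classical
  obtain ⟨M, hM, h⟩ := count_of_cells RDiv cellBound_div ε hε
  refine ⟨M, hM, fun k => ?_⟩
  obtain ⟨C, K, hC, h⟩ := h k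
  refine ⟨2 * C, by positivity, ?_⟩
  intro X hX Z hZ d hd T hT
  have hhalf : ∀ d : Fin 3 → ℕ, (∀ i, 1 ≤ d i) → ∀ T : Finset (ℕ × ℕ × ℕ),
      (∀ t ∈ T, Exc M k X t ∧ t.1 ≤ t.2.1 ∧ DivSmall d Z t) →
      (T.card : ℝ) ≤ C * (X : ℝ) ^ ε * Real.sqrt Z := by
    intro d hd T hT
    refine h X hX (Real.sqrt Z) (Real.one_le_sqrt.2 hZ) T (fun t ht => by
      obtain ⟨⟨a1, a2, a3, a4⟩, a5, -⟩ := hT t ht
      exact ⟨a1, a2, a3, a4, a5⟩) ?_
    intro T0 hT0 hC0 s hs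
    obtain ⟨-, -, -, p, q, hpq, hle⟩ := hT s (hT0 hs)
    refine ⟨_, ?_, ?_, d, hd, fun t ht i => ?_, p, q, hpq, rfl⟩
    · positivity
    · rw [Real.sqrt_eq_rpow, basics.rd_univ, basics.rd_univ]
      exact Real.rpow_le_rpow (by positivity) hle (by norm_num)
    · rw [basics.rd_univ]
      exact (hT t (hT0 ht)).2.2.1 i
  have h1 := hhalf d hd (T.filter fun t => t.1 ≤ t.2.1) (fun t ht => by
    rw [mem_filter] at ht
    exact ⟨(hT t ht.1).1, ht.2, (hT t ht.1).2⟩)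
  have h2 := hhalf (fun i => d (sp i)) (fun i => hd _)
    ((T.filter fun t => ¬ t.1 ≤ t.2.1).image sw) (fun t ht => by
    obtain ⟨s, hs, rfl⟩ := mem_image.1 ht
    rw [mem_filter] at hs
    obtain ⟨hs1, hs2⟩ := hs
    refine ⟨sw_exc (hT s hs1).1, ?_, divSmall_sw (hT s hs1).2⟩
    simp only [sw]
    omega)
  rw [card_image_of_injective _ sw_inj] at h2
  have h3 := card_filter_add_card_filter_not (s := T) (fun t => t.1 ≤ t.2.1)
  have h4 : (T.card : ℝ) = ((T.filter fun t => t.1 ≤ t.2.1).card : ℝ) +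
      ((T.filter fun t => ¬ t.1 ≤ t.2.1).card : ℝ) := by
    exact_mod_cast h3.symm
  rw [h4]
  linarith

/-- the pattern of a divisor of the radical of a triple -/
def gp (r : ℕ) (t : ℕ × ℕ × ℕ) : Fin 3 → ℕ := fun i => Nat.gcd r (rad (num t i))

lemma rad_coprime {m n : ℕ} (h : Nat.Coprime m n) : Nat.Coprime (rad m) (rad n) :=
  Nat.Coprime.coprime_dvd_left (Nat.prod_primeFactors_dvd _)
    (Nat.Coprime.coprime_dvd_right (Nat.prod_primeFactors_dvd _) h)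

lemma gp_prod {r : ℕ} {t : ℕ × ℕ × ℕ} (h : IsABCTriple t.1 t.2.1 t.2.2)
    (hr : r ∣ rad (t.1 * t.2.1 * t.2.2)) : ∏ i, gp r t i = r := by
  classical
  rw [← rad_abc h] at hr
  unfold gp
  rw [← gcd_prod r univ (fun i => rad (num t i)) (fun i _ j _ hij =>
    rad_coprime (EC.num_coprime h hij)), Fin.prod_univ_three]
  exact Nat.gcd_eq_left hr

/-- **The count of the exceptions with `r ∣ rad (abc)`.** -/
theorem count_div (ε : ℝ) (hε : 0 < ε) : ∃ M : ℕ, 1 ≤ M ∧ ∀ k : ℕ, ∃ C : ℝ, 0 < C ∧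
    ∀ X r : ℕ, 1 ≤ X → 1 ≤ r → ∀ T : Finset (ℕ × ℕ × ℕ),
    (∀ t ∈ T, Exc M k X t ∧ r ∣ rad (t.1 * t.2.1 * t.2.2)) →
    (T.card : ℝ) ≤ C * (X : ℝ) ^ ε * ((X : ℝ) / r) ^ ((1 : ℝ) / 3) := by
  classical
  obtain ⟨M, hM, h⟩ := count_div_small (ε / 2) (by positivity)
  refine ⟨M, hM, fun k => ?_⟩
  obtain ⟨C, hC, h⟩ := h k
  obtain ⟨DF, hDF, hFac⟩ := stmtFac 3 (ε / 2) (by positivity)
  refine ⟨DF * C, by positivity, ?_⟩
  intro X r hX hr T hT
  have hX1 : (1 : ℝ) ≤ X := by exact_mod_cast hX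
  have hX0 : (0 : ℝ) < X := by linarith
  have hr0 : (0 : ℝ) < r := by exact_mod_cast hr
  rcases T.eq_empty_or_nonempty with h0 | ⟨t0, ht0⟩
  · rw [h0, card_empty, Nat.cast_zero]
    positivity
  have hrX : r ≤ X := by
    obtain ⟨⟨habc, h1, -, -⟩, h2⟩ := hT t0 ht0
    exact (Nat.le_of_dvd (rad_pos _) h2).trans h1
  have hXr : (1 : ℝ) ≤ (X : ℝ) / r := by
    rw [le_div_iff₀ hr0, one_mul]
    exact_mod_cast hrX
  obtain ⟨Z, hZ⟩ : ∃ Z : ℝ, Z = ((X : ℝ) / r) ^ ((2 : ℝ) / 3) := ⟨_, rfl⟩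
  have hZ1 : 1 ≤ Z := by rw [hZ]; exact Real.one_le_rpow hXr (by norm_num)
  have hsZ : Real.sqrt Z = ((X : ℝ) / r) ^ ((1 : ℝ) / 3) := by
    rw [hZ, Real.sqrt_eq_rpow, ← Real.rpow_mul (by positivity)]
    norm_num
  set I := T.image (gp r) with hI
  have hIcard : (I.card : ℝ) ≤ DF * (X : ℝ) ^ (ε / 2) := by
    have h1 := hFac r hr I (by
      intro x hx
      obtain ⟨t, ht, rfl⟩ := mem_image.1 hx
      exact gp_prod (hT t ht).1.1 (hT t ht).2)
    refine h1.trans (mul_le_mul_of_nonneg_left ?_ hDF.le)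
    exact Real.rpow_le_rpow (Nat.cast_nonneg _) (by exact_mod_cast hrX) (by positivity)
  have hfib : ∀ d ∈ I, ((T.filter fun t => gp r t = d).card : ℝ) ≤
      C * (X : ℝ) ^ (ε / 2) * Real.sqrt Z := by
    intro d hd
    obtain ⟨t1, ht1, rfl⟩ := mem_image.1 hd
    have hpos : ∀ t : ℕ × ℕ × ℕ, ∀ i, 1 ≤ gp r t i := fun t i =>
      Nat.gcd_pos_of_pos_left _ hr
    apply h X hX Z hZ1 (gp r t1) (hpos t1)
    intro t ht
    rw [mem_filter] at ht
    obtain ⟨htT, hgt⟩ := ht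
    obtain ⟨hexc, hdv⟩ := hT t htT
    refine ⟨hexc, ?_, ?_⟩
    · intro i
      rw [← hgt]
      exact Nat.gcd_dvd_right _ _
    · have hgR : ∀ i, (0 : ℝ) < gp r t i := fun i => by exact_mod_cast hpos t i
      obtain ⟨p, q, r', hpq, -, -, hle⟩ := min_prod (Y := (X : ℝ) / r) hXr
        (fun i => (rad (num t i) : ℝ) / gp r t i) (fun i => by
          rw [le_div_iff₀ (hgR i), one_mul]
          exact_mod_cast Nat.le_of_dvd (rad_pos _) (Nat.gcd_dvd_right _ _)) (by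
          have e1 := gp_prod hexc.1 hdv
          rw [Fin.prod_univ_three] at e1
          have e2 := rad_abc hexc.1
          have e3 : (r : ℝ) = gp r t 0 * gp r t 1 * gp r t 2 := by exact_mod_cast e1.symm
          have e4 : (rad (num t 0) : ℝ) * rad (num t 1) * rad (num t 2) =
              rad (t.1 * t.2.1 * t.2.2) := by exact_mod_cast e2
          have g0 := (hgR 0).ne'
          have g1 := (hgR 1).ne'
          have g2 := (hgR 2).ne'
          calc (rad (num t 0) : ℝ) / gp r t 0 * ((rad (num t 1) : ℝ) / gp r t 1) *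
                ((rad (num t 2) : ℝ) / gp r t 2)
              = ((rad (num t 0) : ℝ) * rad (num t 1) * rad (num t 2)) /
                (gp r t 0 * gp r t 1 * gp r t 2) := by field_simp
            _ = (rad (t.1 * t.2.1 * t.2.2) : ℝ) / r := by rw [e4, ← e3]
            _ ≤ (X : ℝ) / r := by
                apply div_le_div_of_nonneg_right _ hr0.le
                exact_mod_cast hexc.2.1)
      refine ⟨p, q, hpq, ?_⟩
      rw [← hgt, hZ]
      exact hle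
  have hsum : T.card = ∑ d ∈ I, (T.filter fun t => gp r t = d).card :=
    card_eq_sum_card_image _ T
  have hXX : (X : ℝ) ^ (ε / 2) * (X : ℝ) ^ (ε / 2) = (X : ℝ) ^ ε := by
    rw [← Real.rpow_add hX0]
    congr 1
    ring
  calc (T.card : ℝ) = ∑ d ∈ I, ((T.filter fun t => gp r t = d).card : ℝ) := by
        rw [hsum]; push_cast; rfl
    _ ≤ ∑ _d ∈ I, C * (X : ℝ) ^ (ε / 2) * Real.sqrt Z := sum_le_sum hfib
    _ = (I.card : ℝ) * (C * (X : ℝ) ^ (ε / 2) * Real.sqrt Z) := by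
        rw [sum_const, nsmul_eq_mul]
    _ ≤ (DF * (X : ℝ) ^ (ε / 2)) * (C * (X : ℝ) ^ (ε / 2) * Real.sqrt Z) := by
        apply mul_le_mul_of_nonneg_right hIcard
        have := Real.sqrt_nonneg Z
        positivity
    _ = DF * C * ((X : ℝ) ^ (ε / 2) * (X : ℝ) ^ (ε / 2)) * Real.sqrt Z := by ring
    _ = _ := by rw [hXX, hsZ]

end Pool.Agent.X75A
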